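import Pool.Agent.H497.GP.Defs

set_option autoImplicit false

open scoped TensorProduct Matrix ComplexConjugate
open IsDedekindDomain NumberField

namespace Pool.Agent.H497.GP




variable {F E : Type} [Field F] [NumberField F] [Field E] [NumberField E] [Algebra F E] {n : ℕ}


section aux

variable (A : Matrix (Fin n) (Fin n) ℂ)

theorem cd_sub_left (x x' y : Fin n → ℂ) : form (starRingEnd ℂ) A (x - x') y =
    form (starRingEnd ℂ) A x y - form (starRingEnd ℂ) A x' y := by
  unfold form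
  rw [← sub_dotProduct]
  congr 1
  funext i
  simp

theorem cd_smul_left (t : ℂ) (x y : Fin n → ℂ) : form (starRingEnd ℂ) A (t • x) y =
    conj t * form (starRingEnd ℂ) A x y := by
  unfold form
  rw [← smul_eq_mul, ← smul_dotProduct]
  congr 1
  funext i
  simp

theorem cd_sub_right (x y y' : Fin n → ℂ) : form (starRingEnd ℂ) A x (y - y') =
    form (starRingEnd ℂ) A x y - form (starRingEnd ℂ) A x y' := by
  unfold form
  rw [Matrix.mulVec_sub, dotProduct_sub]

theorem cd_smul_right (t : ℂ) (x y : Fin n → ℂ) : form (starRingEnd ℂ) A x (t • y) =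
    t * form (starRingEnd ℂ) A x y := by
  unfold form
  rw [Matrix.mulVec_smul, dotProduct_smul, smul_eq_mul]

theorem cd_conj (hA : Aᴴ = A) (x y : Fin n → ℂ) :
    conj (form (starRingEnd ℂ) A x y) = form (starRingEnd ℂ) A y x := by
  unfold form dotProduct Matrix.mulVec dotProduct
  rw [map_sum]
  simp only [map_mul, map_sum, Complex.conj_conj, Finset.mul_sum]
  rw [Finset.sum_comm]
  refine Finset.sum_congr rfl fun j _ => Finset.sum_congr rfl fun i _ => ?_
  have h : conj (A i j) = A j i := by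
    have h1 := congrFun (congrFun hA j) i
    rw [Matrix.conjTranspose_apply] at h1
    exact h1
  rw [h]
  ring

theorem cd_sign (hA : Definite A) : ∃ s : ℝ, (s = 1 ∨ s = -1) ∧ ∀ v : Fin n → ℂ, v ≠ 0 →
    0 < s * (form (starRingEnd ℂ) A v v).re := by
  rcases hA.2 with h | h
  · exact ⟨1, Or.inl rfl, fun v hv => by rw [one_mul]; exact h v hv⟩
  · exact ⟨-1, Or.inr rfl, fun v hv => by have := h v hv; linarith⟩

theorem cd_zero (y : Fin n → ℂ) : form (starRingEnd ℂ) A 0 y = 0 := by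
  have h := cd_smul_left A 0 0 y
  rw [zero_smul, map_zero, zero_mul] at h
  exact h

end aux

/-- Cauchy-Schwarz: `u = w - t v` with `t = form v w / form v v`, `form u u = form w w - |t|^2 form v v` has the sign of
`form v v` or is zero; if `t = 1` then `form u u = 0`, so `u = 0`. -/
theorem cs_def (A : Matrix (Fin n) (Fin n) ℂ) (hA : Definite A) (v w : Fin n → ℂ)
    (hv : form (starRingEnd ℂ) A v v ≠ 0)
    (hw : form (starRingEnd ℂ) A w w = form (starRingEnd ℂ) A v v) :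
    ‖form (starRingEnd ℂ) A v w‖ ≤ ‖form (starRingEnd ℂ) A v v‖ ∧
    (form (starRingEnd ℂ) A v w = form (starRingEnd ℂ) A v v → w = v) := by
  obtain ⟨s, hs, hpos⟩ := cd_sign A hA
  obtain ⟨B, hB⟩ : ∃ B : ℂ, B = form (starRingEnd ℂ) A v v := ⟨_, rfl⟩
  obtain ⟨t, ht⟩ : ∃ t : ℂ, t = form (starRingEnd ℂ) A v w / B := ⟨_, rfl⟩
  rw [← hB] at hv hw ⊢
  have hBr : conj B = B := by rw [hB]; exact cd_conj A hA.1 v v
  have hvw : form (starRingEnd ℂ) A v w = t * B := by rw [ht, div_mul_cancel₀ _ hv]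
  have hwv : form (starRingEnd ℂ) A w v = conj t * B := by
    rw [← cd_conj A hA.1 v w, hvw, map_mul, hBr]
  have hu : form (starRingEnd ℂ) A (w - t • v) (w - t • v) = (1 - t * conj t) * B := by
    rw [cd_sub_left, cd_sub_right, cd_sub_right, cd_smul_left, cd_smul_left, cd_smul_right,
      cd_smul_right, hw, hvw, hwv, ← hB]
    ring
  have hnt : t * conj t = ((‖t‖ ^ 2 : ℝ) : ℂ) := by
    rw [Complex.mul_conj, Complex.normSq_eq_norm_sq]
  have hre : s * (form (starRingEnd ℂ) A (w - t • v) (w - t • v)).re =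
      (1 - ‖t‖ ^ 2) * (s * B.re) := by
    rw [hu, hnt]
    have e : (1 - ((‖t‖ ^ 2 : ℝ) : ℂ)) * B = ((1 - ‖t‖ ^ 2 : ℝ) : ℂ) * B := by push_cast; ring
    rw [e, Complex.re_ofReal_mul]
    ring
  have hv0 : v ≠ 0 := by
    intro h
    rw [h, cd_zero] at hB
    exact hv hB
  have hBpos : 0 < s * B.re := by
    rw [hB]
    exact hpos v hv0
  have hcase : w - t • v ≠ 0 → ‖t‖ ^ 2 < 1 := by
    intro h
    have h1 := hpos _ h
    rw [hre] at h1
    have h2 := (pos_iff_pos_of_mul_pos h1).2 hBpos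
    linarith
  constructor
  · rw [hvw, norm_mul]
    have h1 : ‖t‖ ≤ 1 := by
      by_cases h : w - t • v = 0
      · rw [h, cd_zero] at hre
        rw [Complex.zero_re, mul_zero] at hre
        have h2 : 1 - ‖t‖ ^ 2 = 0 := by
          rcases mul_eq_zero.1 hre.symm with h3 | h3
          · exact h3
          · exact absurd h3 hBpos.ne'
        nlinarith [norm_nonneg t]
      · have h2 := hcase h
        nlinarith [norm_nonneg t]
    calc ‖t‖ * ‖B‖ ≤ 1 * ‖B‖ := mul_le_mul_of_nonneg_right h1 (norm_nonneg _)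
      _ = ‖B‖ := one_mul _
  · intro h
    have ht1 : t = 1 := by rw [ht, h, div_self hv]
    by_contra hne
    have h1 : w - t • v ≠ 0 := by
      rw [ht1, one_smul]
      exact sub_ne_zero.2 hne
    have h2 := hcase h1
    rw [ht1, norm_one] at h2
    norm_num at h2

/-- by compactness of the unit sphere (sup norm) there is `b > 0` with `b ‖v‖^2 ≤ |form v v|` -/
theorem definite_lower (A : Matrix (Fin n) (Fin n) ℂ) (hA : Definite A) :
    ∃ b : ℝ, 0 < b ∧ ∀ v : Fin n → ℂ, b * ‖v‖ ^ 2 ≤ ‖form (starRingEnd ℂ) A v v‖ := by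
  obtain ⟨s, hs, hpos⟩ := cd_sign A hA
  have hle : ∀ v : Fin n → ℂ, s * (form (starRingEnd ℂ) A v v).re ≤
      ‖form (starRingEnd ℂ) A v v‖ := by
    intro v
    have h1 := Complex.abs_re_le_norm (form (starRingEnd ℂ) A v v)
    rcases hs with h | h
    · rw [h, one_mul]
      exact (le_abs_self _).trans h1
    · rw [h, neg_one_mul]
      exact (neg_le_abs _).trans h1
  have hcont : Continuous fun v : Fin n → ℂ => s * (form (starRingEnd ℂ) A v v).re := by
    unfold form dotProduct Matrix.mulVec dotProduct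
    refine continuous_const.mul (Complex.continuous_re.comp ?_)
    refine continuous_finsetSum _ fun i _ => ?_
    refine (Complex.continuous_conj.comp (continuous_apply i)).mul ?_
    exact continuous_finsetSum _ fun j _ => continuous_const.mul (continuous_apply j)
  by_cases hne : (Metric.sphere (0 : Fin n → ℂ) 1).Nonempty
  · obtain ⟨v0, hv0, hmin⟩ := (isCompact_sphere (0 : Fin n → ℂ) 1).exists_isMinOn hne
      hcont.continuousOn
    have hv00 : v0 ≠ 0 := by
      intro h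
      rw [h, mem_sphere_zero_iff_norm, norm_zero] at hv0
      exact zero_ne_one hv0
    refine ⟨s * (form (starRingEnd ℂ) A v0 v0).re, hpos v0 hv00, fun v => ?_⟩
    by_cases hv : v = 0
    · rw [hv, norm_zero]
      simp
    · refine le_trans ?_ (hle v)
      have hn : 0 < ‖v‖ := norm_pos_iff.2 hv
      have h1 : ‖(((‖v‖⁻¹ : ℝ) : ℂ)) • v‖ = 1 := by
        rw [norm_smul, Complex.norm_real, norm_inv, norm_norm, inv_mul_cancel₀ hn.ne']
      have h2 := hmin (a := (((‖v‖⁻¹ : ℝ) : ℂ)) • v) (by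
        rw [mem_sphere_zero_iff_norm]
        exact h1)
      have h3 : s * (form (starRingEnd ℂ) A ((((‖v‖⁻¹ : ℝ) : ℂ)) • v)
          ((((‖v‖⁻¹ : ℝ) : ℂ)) • v)).re =
          (‖v‖⁻¹) ^ 2 * (s * (form (starRingEnd ℂ) A v v).re) := by
        rw [cd_smul_left, cd_smul_right, Complex.conj_ofReal, ← mul_assoc, ← Complex.ofReal_mul,
          Complex.re_ofReal_mul]
        ring
      have h4 : s * (form (starRingEnd ℂ) A v0 v0).re ≤
          (‖v‖⁻¹) ^ 2 * (s * (form (starRingEnd ℂ) A v v).re) := by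
        rw [← h3]
        exact h2
      calc s * (form (starRingEnd ℂ) A v0 v0).re * ‖v‖ ^ 2 ≤
          ((‖v‖⁻¹) ^ 2 * (s * (form (starRingEnd ℂ) A v v).re)) * ‖v‖ ^ 2 :=
            mul_le_mul_of_nonneg_right h4 (by positivity)
        _ = _ := by field_simp
  · refine ⟨1, one_pos, fun v => ?_⟩
    by_cases hv : v = 0
    · rw [hv, norm_zero]
      simp
    · exfalso
      apply hne
      have hn : 0 < ‖v‖ := norm_pos_iff.2 hv
      refine ⟨(((‖v‖⁻¹ : ℝ) : ℂ)) • v, ?_⟩
      rw [mem_sphere_zero_iff_norm, norm_smul, Complex.norm_real, norm_inv, norm_norm,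
        inv_mul_cancel₀ hn.ne']

/-- The columns `v` of `γ` (mapped by `τ`) have `form v v = τ (A k k)`; finitely many `τ`. -/
theorem arch_bound (c : E →ₐ[F] E) (hc : ∀ (τ : E →+* ℂ) x, τ (c x) = conj (τ x))
    (A : Matrix (Fin n) (Fin n) E) (hA : ∀ τ : E →+* ℂ, Definite (A.map τ)) (sp : Prop) :
    ∃ C : ℝ, ∀ γ ∈ Isom (c : E →+* E) A sp, ∀ (τ : E →+* ℂ) (i k : Fin n),
      ‖τ ((γ : Matrix (Fin n) (Fin n) E) i k)‖ ≤ C := by
  choose b hb0 hb using fun τ : E →+* ℂ => definite_lower (A.map τ) (hA τ)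
  refine ⟨∑ τ : E →+* ℂ, ∑ k : Fin n, (1 + ‖τ (A k k)‖ / b τ), ?_⟩
  intro γ hγ τ i k
  obtain ⟨hγ1, _⟩ := hγ
  have hcol : form (starRingEnd ℂ) (A.map τ) (fun i => τ ((γ : Matrix (Fin n) (Fin n) E) i k))
      (fun i => τ ((γ : Matrix (Fin n) (Fin n) E) i k)) = τ (A k k) := by
    have h1 := congrFun (congrFun hγ1 k) k
    rw [Matrix.mul_assoc, Matrix.mul_apply] at h1
    rw [← h1, map_sum]
    unfold form dotProduct
    refine Finset.sum_congr rfl fun j _ => ?_
    rw [map_mul]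
    congr 1
    · rw [Matrix.transpose_apply, Matrix.map_apply]
      exact (hc τ _).symm
    · rw [Matrix.mul_apply, map_sum]
      unfold Matrix.mulVec dotProduct
      refine Finset.sum_congr rfl fun l _ => ?_
      rw [map_mul]
      rfl
  have h2 := hb τ (fun i => τ ((γ : Matrix (Fin n) (Fin n) E) i k))
  rw [hcol] at h2
  have h3 : ‖τ ((γ : Matrix (Fin n) (Fin n) E) i k)‖ ≤
      ‖(fun i => τ ((γ : Matrix (Fin n) (Fin n) E) i k))‖ :=
    norm_le_pi_norm (fun i => τ ((γ : Matrix (Fin n) (Fin n) E) i k)) i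
  obtain ⟨N, hN⟩ : ∃ N : ℝ, N = ‖(fun i => τ ((γ : Matrix (Fin n) (Fin n) E) i k))‖ := ⟨_, rfl⟩
  rw [← hN] at h2 h3
  have hN0 : 0 ≤ N := by rw [hN]; exact norm_nonneg _
  have h4 : N ^ 2 ≤ ‖τ (A k k)‖ / b τ := by
    rw [le_div_iff₀ (hb0 τ)]
    linarith
  have h5 : N ≤ 1 + ‖τ (A k k)‖ / b τ := by nlinarith [sq_nonneg (N - 1)]
  have hnn : ∀ (τ : E →+* ℂ) (k : Fin n), 0 ≤ 1 + ‖τ (A k k)‖ / b τ := by
    intro τ k
    have := hb0 τ
    positivity
  have h6 : 1 + ‖τ (A k k)‖ / b τ ≤ ∑ k : Fin n, (1 + ‖τ (A k k)‖ / b τ) :=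
    Finset.single_le_sum (f := fun k : Fin n => 1 + ‖τ (A k k)‖ / b τ) (fun k _ => hnn τ k)
      (Finset.mem_univ k)
  have h7 : ∑ k : Fin n, (1 + ‖τ (A k k)‖ / b τ) ≤
      ∑ τ : E →+* ℂ, ∑ k : Fin n, (1 + ‖τ (A k k)‖ / b τ) :=
    Finset.single_le_sum (f := fun τ : E →+* ℂ => ∑ k : Fin n, (1 + ‖τ (A k k)‖ / b τ))
      (fun τ _ => Finset.sum_nonneg fun k _ => hnn τ k) (Finset.mem_univ τ)
  linarith

end Pool.Agent.H497.GP
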