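import Mathlib

set_option autoImplicit false

open scoped TensorProduct Matrix ComplexConjugate
open IsDedekindDomain NumberField

namespace Pool.Agent.H497.GP

/-! ### Automorphic forms on a group with a discrete subgroup, by representatives -/

section Forms

variable {Γ G U ι : Type*} [Group Γ] [Group G] [NormedAddCommGroup U] [InnerProductSpace ℂ U]

/-- The order of `Γ ∩ g K g⁻¹` (`j` is the inclusion of `Γ` in `G`). -/
noncomputable def st (j : Γ →* G) (K : Subgroup G) (g : G) : ℕ :=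
  Nat.card {γ : Γ // g⁻¹ * j γ * g ∈ K}

/-- `S` is a set of representatives of `Γ \ G / K`. -/
def Reps (j : Γ →* G) (K : Subgroup G) (S : Set G) : Prop :=
  ∀ g : G, ∃! s : G, s ∈ S ∧ ∃ γ : Γ, ∃ k ∈ K, g = j γ * s * k

/-- Automorphic forms of weight `ρ` and level `K`, of finite support modulo `Γ` and `K`. -/
structure IsForm (j : Γ →* G) (K : Subgroup G) (S : Set G) (ρ : Γ →* (U ≃ₗᵢ[ℂ] U)) (φ : G → U) :
    Prop where
  eq : ∀ (γ : Γ) (g : G), ∀ k ∈ K, φ (j γ * g * k) = ρ γ (φ g)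
  fin : {s | s ∈ S ∧ φ s ≠ 0}.Finite

/-- The inner product: sum over `Γ \ G / K` with weights `1 / |Γ ∩ s K s⁻¹|`. -/
noncomputable def ip (j : Γ →* G) (K : Subgroup G) (S : Set G) (φ ψ : G → U) : ℂ :=
  ∑ᶠ (s : G) (_ : s ∈ S), inner ℂ (φ s) (ψ s) / (st j K s : ℂ)

/-- The Hecke operator of `κ`: the sum of `κ(x) φ(g x)` over `x` in `G / K`. -/
noncomputable def hecke (K : Subgroup G) (κ : G → ℂ) (φ : G → U) (g : G) : U :=
  ∑ᶠ x : G ⧸ K, κ x.out • φ (g * x.out)

/-- Hecke functions: bi-invariant under `K`, of finite support in `G / K`. -/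
structure IsHecke (K : Subgroup G) (κ : G → ℂ) : Prop where
  inv : ∀ g : G, ∀ k ∈ K, ∀ k' ∈ K, κ (k * g * k') = κ g
  fin : {x : G ⧸ K | κ x.out ≠ 0}.Finite

/-- A complete orthonormal system of forms (Parseval's identity). -/
structure IsBasis (j : Γ →* G) (K : Subgroup G) (S : Set G) (ρ : Γ →* (U ≃ₗᵢ[ℂ] U))
    (φ : ι → G → U) : Prop where
  form : ∀ i, IsForm j K S ρ (φ i)
  orth : ∀ i i', i ≠ i' → ip j K S (φ i) (φ i') = 0
  norm : ∀ i, ip j K S (φ i) (φ i) = 1
  parseval : ∀ ψ ψ' : G → U, IsForm j K S ρ ψ → IsForm j K S ρ ψ' →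
    HasSum (fun i => ip j K S ψ (φ i) * ip j K S (φ i) ψ') (ip j K S ψ ψ')

/-- Restriction of a homomorphism to subgroups. -/
def resHom (j : Γ →* G) (Δ : Subgroup Γ) (H : Subgroup G) (h : ∀ δ ∈ Δ, j δ ∈ H) : Δ →* H :=
  (j.comp Δ.subtype).codRestrict H (fun δ => h δ.1 δ.2)

/-- Elementary Poincaré series. -/
noncomputable def lift (j : Γ →* G) (K : Subgroup G) (ρ : Γ →* (U ≃ₗᵢ[ℂ] U)) (x : G) (u : U) (g : G) : U :=
  ∑ᶠ (γ : Γ) (_ : g⁻¹ * j γ * x ∈ K), ρ γ u

end Forms

/-! ### Isometry groups -/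

section Isom

variable {n : ℕ} {S T : Type*} [CommRing S] [CommRing T]

/-- The sesquilinear form `Σ s(x_i) A_ij y_j`. -/
def form (s : S →+* S) (A : Matrix (Fin n) (Fin n) S) (x y : Fin n → S) : S :=
  (fun i => s (x i)) ⬝ᵥ (A *ᵥ y)

/-- A hermitian form over `ℂ` which is positive or negative definite. -/
def Definite (M : Matrix (Fin n) (Fin n) ℂ) : Prop :=
  Mᴴ = M ∧ ((∀ v : Fin n → ℂ, v ≠ 0 → 0 < (form (starRingEnd ℂ) M v v).re) ∨
    (∀ v : Fin n → ℂ, v ≠ 0 → (form (starRingEnd ℂ) M v v).re < 0))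

/-- Isometries of the form `A` over `S`; of determinant one if `sp`. -/
def Isom (s : S →+* S) (A : Matrix (Fin n) (Fin n) S) (sp : Prop) : Subgroup (GL (Fin n) S) where
  carrier := {g | ((g : Matrix (Fin n) (Fin n) S).map s)ᵀ * A * (g : Matrix (Fin n) (Fin n) S) = A ∧
    (sp → (g : Matrix (Fin n) (Fin n) S).det = 1)}
  mul_mem' := by
    rintro a b ⟨ha, ha'⟩ ⟨hb, hb'⟩
    refine ⟨?_, fun h => ?_⟩
    · rw [Matrix.GeneralLinearGroup.coe_mul, Matrix.map_mul, Matrix.transpose_mul]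
      calc _ = ((b : Matrix (Fin n) (Fin n) S).map s)ᵀ *
            (((a : Matrix (Fin n) (Fin n) S).map s)ᵀ * A * (a : Matrix (Fin n) (Fin n) S)) *
            (b : Matrix (Fin n) (Fin n) S) := by simp only [Matrix.mul_assoc]
        _ = _ := by rw [ha, hb]
    · rw [Matrix.GeneralLinearGroup.coe_mul, Matrix.det_mul, ha' h, hb' h, one_mul]
  one_mem' := by
    refine ⟨?_, fun _ => ?_⟩
    · rw [Matrix.GeneralLinearGroup.coe_one, Matrix.map_one _ (map_zero s) (map_one s),
        Matrix.transpose_one, Matrix.one_mul, Matrix.mul_one]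
    · rw [Matrix.GeneralLinearGroup.coe_one, Matrix.det_one]
  inv_mem' := by
    rintro a ⟨ha, ha'⟩
    have h1 : (a : Matrix (Fin n) (Fin n) S) * ((a⁻¹ : GL (Fin n) S) : Matrix (Fin n) (Fin n) S) = 1 := by
      rw [← Matrix.GeneralLinearGroup.coe_mul, mul_inv_cancel, Matrix.GeneralLinearGroup.coe_one]
    refine ⟨?_, fun h => ?_⟩
    · have h2 : (((a⁻¹ : GL (Fin n) S) : Matrix (Fin n) (Fin n) S).map s)ᵀ *
          ((a : Matrix (Fin n) (Fin n) S).map s)ᵀ = 1 := by
        rw [← Matrix.transpose_mul, ← Matrix.map_mul, h1, Matrix.map_one _ (map_zero s) (map_one s),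
          Matrix.transpose_one]
      calc _ = (((a⁻¹ : GL (Fin n) S) : Matrix (Fin n) (Fin n) S).map s)ᵀ *
            (((a : Matrix (Fin n) (Fin n) S).map s)ᵀ * A * (a : Matrix (Fin n) (Fin n) S)) *
            ((a⁻¹ : GL (Fin n) S) : Matrix (Fin n) (Fin n) S) := by rw [ha]
        _ = (((a⁻¹ : GL (Fin n) S) : Matrix (Fin n) (Fin n) S).map s)ᵀ *
            ((a : Matrix (Fin n) (Fin n) S).map s)ᵀ * A * ((a : Matrix (Fin n) (Fin n) S) *
            ((a⁻¹ : GL (Fin n) S) : Matrix (Fin n) (Fin n) S)) := by simp only [Matrix.mul_assoc]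
        _ = A := by rw [h2, h1, Matrix.one_mul, Matrix.mul_one]
    · have h3 := congrArg Matrix.det h1
      rw [Matrix.det_mul, ha' h, one_mul, Matrix.det_one] at h3
      exact h3

/-- The stabiliser of the vector `e` in a group of matrices. -/
def Fix (H : Subgroup (GL (Fin n) S)) (e : Fin n → S) : Subgroup H where
  carrier := {g | (g.1 : Matrix (Fin n) (Fin n) S) *ᵥ e = e}
  mul_mem' := by
    rintro a b ha hb
    show ((a * b : H).1 : Matrix (Fin n) (Fin n) S) *ᵥ e = e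
    rw [Subgroup.coe_mul, Matrix.GeneralLinearGroup.coe_mul, ← Matrix.mulVec_mulVec]
    rw [show (b.1 : Matrix (Fin n) (Fin n) S) *ᵥ e = e from hb]
    exact ha
  one_mem' := by
    show ((1 : H).1 : Matrix (Fin n) (Fin n) S) *ᵥ e = e
    rw [Subgroup.coe_one, Matrix.GeneralLinearGroup.coe_one, Matrix.one_mulVec]
  inv_mem' := by
    rintro a ha
    show ((a⁻¹ : H).1 : Matrix (Fin n) (Fin n) S) *ᵥ e = e
    have ha' : (a.1 : Matrix (Fin n) (Fin n) S) *ᵥ e = e := ha
    have h1 : ((a⁻¹ : H).1 : Matrix (Fin n) (Fin n) S) * (a.1 : Matrix (Fin n) (Fin n) S) = 1 := by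
      rw [← Matrix.GeneralLinearGroup.coe_mul, ← Subgroup.coe_mul, inv_mul_cancel, Subgroup.coe_one,
        Matrix.GeneralLinearGroup.coe_one]
    calc _ = ((a⁻¹ : H).1 : Matrix (Fin n) (Fin n) S) *ᵥ ((a.1 : Matrix (Fin n) (Fin n) S) *ᵥ e) := by
          rw [ha']
      _ = e := by rw [Matrix.mulVec_mulVec, h1, Matrix.one_mulVec]

/-- Base change of isometries. -/
def baseChange (s : S →+* S) (t : T →+* T) (f : S →+* T) (hf : ∀ x, t (f x) = f (s x))
    (A : Matrix (Fin n) (Fin n) S) (sp : Prop) : Isom s A sp →* Isom t (A.map f) sp :=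
  ((Matrix.GeneralLinearGroup.map f).comp (Isom s A sp).subtype).codRestrict (Isom t (A.map f) sp) (by
    rintro ⟨g, hg, hg'⟩
    refine ⟨?_, fun h => ?_⟩
    · have e1 : ((((Matrix.GeneralLinearGroup.map f).comp (Isom s A sp).subtype ⟨g, hg, hg'⟩ :
          GL (Fin n) T) : Matrix (Fin n) (Fin n) T)) = (g : Matrix (Fin n) (Fin n) S).map f := rfl
      rw [e1]
      have e2 : ((g : Matrix (Fin n) (Fin n) S).map f).map t =
          ((g : Matrix (Fin n) (Fin n) S).map s).map f := by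
        ext i k
        simp only [Matrix.map_apply]
        exact hf _
      rw [e2, ← Matrix.transpose_map, ← Matrix.map_mul, ← Matrix.map_mul, hg]
    · show (((g : Matrix (Fin n) (Fin n) S).map f)).det = 1
      have := RingHom.map_det f (g : Matrix (Fin n) (Fin n) S)
      rw [RingHom.mapMatrix_apply] at this
      rw [← this, hg' h, map_one])

end Isom

/-! ### Adeles -/

section Adeles

variable (F E : Type) [Field F] [NumberField F] [Field E] [NumberField E] [Algebra F E]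

/-- The finite adeles of `F`. -/
abbrev AF : Type := FiniteAdeleRing (𝓞 F) F

/-- `E ⊗ 𝔸_F`, the finite adeles of `E`. -/
abbrev AE : Type := E ⊗[F] AF F

/-- The inclusion of `E`. -/
noncomputable def inc : E →+* AE F E := (Algebra.TensorProduct.includeLeft : E →ₐ[F] AE F E).toRingHom

/-- `c ⊗ 1`. -/
noncomputable def cA (c : E →ₐ[F] E) : AE F E →+* AE F E :=
  (Algebra.TensorProduct.map c (AlgHom.id F (AF F))).toRingHom

/-- The integral adeles: the ring generated by the integers of `E` and the integral adeles of `F`. -/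
noncomputable def OE : Subring (AE F E) :=
  Subring.closure ({z | ∃ x : 𝓞 E, z = (x : E) ⊗ₜ[F] (1 : AF F)} ∪
    {z | ∃ a : AF F, (∀ v : HeightOneSpectrum (𝓞 F), a v ∈ v.adicCompletionIntegers F) ∧
      z = (1 : E) ⊗ₜ[F] a})

variable {F E}

omit [NumberField E] in
theorem cA_inc (c : E →ₐ[F] E) (x : E) : cA F E c (inc F E x) = inc F E (c x) := by
  simp [cA, inc]

end Adeles

/-! ### The Gan-Gross-Prasad pair `W = e^⊥` in `V = E^n` -/

section Pair

variable {F E : Type} [Field F] [NumberField F] [Field E] [NumberField E] [Algebra F E] {n : ℕ}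

/-- `G(V)(F)`: the isometries of `V`, of determinant one if `E = F`. -/
abbrev GV (c : E →ₐ[F] E) (A : Matrix (Fin n) (Fin n) E) : Subgroup (GL (Fin n) E) :=
  Isom (c : E →+* E) A (c = AlgHom.id F E)

/-- `G(V)` over the finite adeles of `F`. -/
noncomputable abbrev GVA (c : E →ₐ[F] E) (A : Matrix (Fin n) (Fin n) E) : Subgroup (GL (Fin n) (AE F E)) :=
  Isom (cA F E c) (A.map (inc F E)) (c = AlgHom.id F E)

/-- The inclusion of `G(V)(F)`. -/
noncomputable def jV (c : E →ₐ[F] E) (A : Matrix (Fin n) (Fin n) E) : GV c A →* GVA c A :=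
  baseChange (c : E →+* E) (cA F E c) (inc F E) (cA_inc c) A (c = AlgHom.id F E)

/-- `G(W)(F)`, `W` the orthogonal complement of `e`: the stabiliser of `e`. -/
abbrev GW (c : E →ₐ[F] E) (A : Matrix (Fin n) (Fin n) E) (e : Fin n → E) : Subgroup (GV c A) :=
  Fix (GV c A) e

/-- `G(W)` over the finite adeles. -/
noncomputable abbrev GWA (c : E →ₐ[F] E) (A : Matrix (Fin n) (Fin n) E) (e : Fin n → E) : Subgroup (GVA c A) :=
  Fix (GVA c A) (fun i => inc F E (e i))

omit [NumberField E] in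
theorem jV_mem (c : E →ₐ[F] E) (A : Matrix (Fin n) (Fin n) E) (e : Fin n → E) :
    ∀ δ ∈ GW c A e, jV c A δ ∈ GWA c A e := by
  intro δ hδ
  have h1 : (δ.1 : Matrix (Fin n) (Fin n) E) *ᵥ e = e := hδ
  show ((δ.1 : Matrix (Fin n) (Fin n) E).map (inc F E)) *ᵥ (fun i => inc F E (e i)) = fun i => inc F E (e i)
  funext i
  have h2 := congrFun h1 i
  rw [Matrix.mulVec, dotProduct] at h2 ⊢
  rw [← h2, map_sum]
  refine Finset.sum_congr rfl fun k _ => ?_
  rw [Matrix.map_apply, map_mul]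

end Pair

end Pool.Agent.H497.GP
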