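import Pool.Agent.H497.GP.Defs

set_option autoImplicit false

open scoped TensorProduct Matrix ComplexConjugate
open IsDedekindDomain NumberField

namespace Pool.Agent.H497.GP




variable {F E : Type} [Field F] [NumberField F] [Field E] [NumberField E] [Algebra F E] {n : ℕ}

/- auxiliary lemmas -/

theorem den_val (v : HeightOneSpectrum (𝓞 F)) (y : v.adicCompletion F) :
    ∃ m : ℕ, 0 < m ∧ (m : v.adicCompletion F) * y ∈ v.adicCompletionIntegers F := by
  have hN0 : 0 < Ideal.absNorm v.asIdeal := by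
    rw [Nat.pos_iff_ne_zero]
    intro h
    exact v.ne_bot (Ideal.absNorm_eq_zero_iff.mp h)
  have hlt : Valued.v ((Ideal.absNorm v.asIdeal : ℕ) : v.adicCompletion F) < 1 := by
    have h1 := (v.valuation_lt_one_iff_mem (K := F) ((Ideal.absNorm v.asIdeal : ℕ) : 𝓞 F)).2
      (Ideal.absNorm_mem v.asIdeal)
    have h2 := v.valuedAdicCompletion_eq_valuation' ((Ideal.absNorm v.asIdeal : ℕ) : F)
    have e0 : algebraMap (𝓞 F) F ((Ideal.absNorm v.asIdeal : ℕ) : 𝓞 F) =
        ((Ideal.absNorm v.asIdeal : ℕ) : F) := map_natCast _ _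
    have h1' : v.valuation F (algebraMap (𝓞 F) F ((Ideal.absNorm v.asIdeal : ℕ) : 𝓞 F)) < 1 := h1
    rw [e0, ← h2] at h1'
    have e : (((Ideal.absNorm v.asIdeal : ℕ) : F) : v.adicCompletion F) =
        ((Ideal.absNorm v.asIdeal : ℕ) : v.adicCompletion F) :=
      map_natCast (algebraMap F (v.adicCompletion F)) _
    rw [e] at h1'
    exact h1'
  by_cases hy : y = 0
  · refine ⟨1, one_pos, ?_⟩
    rw [hy, mul_zero]
    exact zero_mem _
  · have hv : Valued.v y ≠ 0 := (Valuation.ne_zero_iff _).mpr hy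
    obtain ⟨j, hj⟩ := exists_pow_lt₀ hlt (Units.mk0 (Valued.v y)⁻¹ (inv_ne_zero hv))
    refine ⟨Ideal.absNorm v.asIdeal ^ j, pow_pos hN0 j, ?_⟩
    rw [HeightOneSpectrum.mem_adicCompletionIntegers, map_mul, Nat.cast_pow, map_pow]
    have h3 : Valued.v ((Ideal.absNorm v.asIdeal : ℕ) : v.adicCompletion F) ^ j ≤ (Valued.v y)⁻¹ := by
      exact hj.le
    calc _ ≤ (Valued.v y)⁻¹ * Valued.v y := mul_le_mul_left h3 _
      _ = 1 := inv_mul_cancel₀ hv

theorem den_adele (a : AF F) : ∃ m : ℕ, 0 < m ∧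
    ∀ v : HeightOneSpectrum (𝓞 F), ((m : AF F) * a) v ∈ v.adicCompletionIntegers F := by
  classical
  have hfin : {v : HeightOneSpectrum (𝓞 F) | ¬ a v ∈ v.adicCompletionIntegers F}.Finite :=
    Filter.eventually_cofinite.mp a.2
  choose m hm0 hm using fun v : HeightOneSpectrum (𝓞 F) => den_val v (a v)
  have hcast : ∀ (k : ℕ) (v : HeightOneSpectrum (𝓞 F)), ((k : AF F) * a) v =
      (k : v.adicCompletion F) * a v := by
    intro k v
    have e1 : ((k : AF F) * a) v = (k : AF F) v * a v := rfl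
    have e2 : (k : AF F) v = (k : v.adicCompletion F) := by
      have h1 : algebraMap F (AF F) (k : F) = (k : AF F) := map_natCast _ k
      rw [← h1, FiniteAdeleRing.algebraMap_apply]
      exact map_natCast (algebraMap F (v.adicCompletion F)) k
    rw [e1, e2]
  refine ⟨∏ v ∈ hfin.toFinset, m v, Finset.prod_pos fun v _ => hm0 v, fun v => ?_⟩
  rw [hcast]
  by_cases hv : a v ∈ v.adicCompletionIntegers F
  · exact mul_mem (natCast_mem _ _) hv
  · have hv' : v ∈ hfin.toFinset := hfin.mem_toFinset.mpr hv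
    rw [← Finset.mul_prod_erase _ _ hv', Nat.cast_mul, mul_comm (m v : v.adicCompletion F), mul_assoc]
    exact mul_mem (natCast_mem _ _) (hm v)

theorem den_elt (x : E) : ∃ m : ℕ, 0 < m ∧ ∃ y : 𝓞 E, (y : E) = (m : E) * x := by
  have halg : IsAlgebraic ℤ x := by
    have : Algebra.IsAlgebraic ℤ E := by
      have h1 : Algebra.IsAlgebraic ℤ ℚ := IsLocalization.isAlgebraic ℚ (nonZeroDivisors ℤ)
      exact Algebra.IsAlgebraic.trans ℤ ℚ E
    exact Algebra.IsAlgebraic.isAlgebraic x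
  obtain ⟨y, hy0, hy⟩ := halg.exists_integral_multiple
  have hi : IsIntegral ℤ ((y.natAbs : E) * x) := by
    rcases Int.natAbs_eq y with h | h
    · have e : (y.natAbs : E) * x = y • x := by
        rw [zsmul_eq_mul]
        congr 1
        have := congrArg (Int.cast : ℤ → E) h
        rw [this]; simp
      rw [e]; exact hy
    · have e : (y.natAbs : E) * x = -(y • x) := by
        rw [zsmul_eq_mul, ← neg_mul]
        congr 1
        have := congrArg (Int.cast : ℤ → E) h
        rw [this]; simp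
      rw [e]; exact hy.neg
  exact ⟨y.natAbs, Int.natAbs_pos.mpr hy0, ⟨_, hi⟩, rfl⟩


/-- `TensorProduct.induction_on`. For `x ⊗ a` take `m = m₁ m₂` with `m₁ x` an algebraic integer and `m₂ a` an integral adele
(`a v` is integral for all but finitely many `v`; for each of the others some positive integer `m` has `m * a v` integral:
`v` divides some positive integer, e.g. `absNorm`, valuation `< 1`). For sums multiply the denominators. -/
theorem den_OE (z : AE F E) : ∃ m : ℕ, 0 < m ∧ (m : AE F E) * z ∈ OE F E := by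
  induction z using TensorProduct.induction_on with
  | zero => exact ⟨1, one_pos, by rw [mul_zero]; exact zero_mem _⟩
  | tmul x a =>
    obtain ⟨m₁, h1, y, hy⟩ := den_elt x
    obtain ⟨m₂, h2, ha⟩ := den_adele a
    refine ⟨m₁ * m₂, Nat.mul_pos h1 h2, ?_⟩
    have e1 : ((m₁ : ℕ) : AE F E) = (m₁ : E) ⊗ₜ[F] (1 : AF F) :=
      (map_natCast (Algebra.TensorProduct.includeLeft : E →ₐ[F] AE F E) m₁).symm
    have e2 : ((m₂ : ℕ) : AE F E) = (1 : E) ⊗ₜ[F] (m₂ : AF F) :=
      (map_natCast (Algebra.TensorProduct.includeRight : AF F →ₐ[F] AE F E) m₂).symm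
    have e : ((m₁ * m₂ : ℕ) : AE F E) * (x ⊗ₜ[F] a) =
        ((y : E) ⊗ₜ[F] (1 : AF F)) * ((1 : E) ⊗ₜ[F] ((m₂ : AF F) * a)) := by
      rw [Nat.cast_mul, e1, e2, Algebra.TensorProduct.tmul_mul_tmul,
        Algebra.TensorProduct.tmul_mul_tmul, Algebra.TensorProduct.tmul_mul_tmul, hy, mul_one,
        one_mul, mul_one, one_mul]
    rw [e]
    exact mul_mem (Subring.subset_closure (Or.inl ⟨y, rfl⟩))
      (Subring.subset_closure (Or.inr ⟨_, ha, rfl⟩))
  | add z₁ z₂ ih₁ ih₂ =>
    obtain ⟨m₁, h1, hz1⟩ := ih₁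
    obtain ⟨m₂, h2, hz2⟩ := ih₂
    refine ⟨m₁ * m₂, Nat.mul_pos h1 h2, ?_⟩
    have e : ((m₁ * m₂ : ℕ) : AE F E) * (z₁ + z₂) =
        (m₂ : AE F E) * ((m₁ : AE F E) * z₁) + (m₁ : AE F E) * ((m₂ : AE F E) * z₂) := by
      push_cast; ring
    rw [e]
    exact add_mem (mul_mem (natCast_mem _ _) hz1) (mul_mem (natCast_mem _ _) hz2)

/-- norm: `Algebra.norm_eq_prod_embeddings`, an integer of absolute value `< 1` -/
theorem small_int (x : E) (hx : IsIntegral ℤ x) (h : ∀ τ : E →+* ℂ, ‖τ x‖ < 1) : x = 0 := by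
  by_contra hne
  have ha : (⟨x, hx⟩ : 𝓞 E) ≠ 0 := by
    intro h0
    exact hne (congrArg (fun y : 𝓞 E => (y : E)) h0)
  obtain ⟨w⟩ : Nonempty (InfinitePlace E) := inferInstance
  have hw : ∀ z : InfinitePlace E, z ((⟨x, hx⟩ : 𝓞 E) : E) < 1 := by
    intro z
    have h1 := h z.embedding
    rw [InfinitePlace.norm_embedding_eq] at h1
    exact h1
  have h1 := InfinitePlace.one_le_of_lt_one (w := w) ha (fun z _ => hw z)
  exact absurd (hw w) (not_lt.mpr h1)

end Pool.Agent.H497.GP
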