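import Pool.Agent.H497.GP.IntOE
import Pool.Agent.H497.GP.Den
import Pool.Agent.H497.GP.Arch

set_option autoImplicit false

open scoped TensorProduct Matrix ComplexConjugate
open IsDedekindDomain NumberField

namespace Pool.Agent.H497.GP

variable {F E : Type} [Field F] [NumberField F] [Field E] [NumberField E] [Algebra F E] {n : ℕ}
  {R : Type} [CommRing R] (s : R →+* R) (f : E →+* R) (O : Subring R)

omit [Field E] [NumberField E] in
theorem exists_common_den (hden : ∀ z : R, ∃ m : ℕ, 0 < m ∧ (m : R) * z ∈ O) {N : ℕ} (f : Fin N → Fin N → R) :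
    ∃ M : ℕ, 0 < M ∧ ∀ i l, (M : R) * f i l ∈ O := by
  classical
  choose m hm0 hm using fun (p : Fin N × Fin N) => hden (f p.1 p.2)
  refine ⟨∏ p : Fin N × Fin N, m p, Finset.prod_pos fun p _ => hm0 p, fun i l => ?_⟩
  have h1 : ((∏ p : Fin N × Fin N, m p : ℕ) : R) * f i l =
      ((∏ p ∈ Finset.univ.erase (i, l), m p : ℕ) : R) * ((m (i, l) : R) * f i l) := by
    rw [← Finset.prod_erase_mul Finset.univ m (Finset.mem_univ (i, l)), Nat.cast_mul, mul_assoc]
  rw [h1]
  exact Subring.mul_mem _ (natCast_mem _ _) (hm (i, l))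

/-- `γ = g k g⁻¹`, entries `∑ g_ia k_ab (g⁻¹)_bl`; with `M` a common denominator of all entries of `g`, `g⁻¹` (`den_OE`,
product over the entries) and `m` that of `K`, `(M^2 m) γ_il ∈ OE`, so `(M^2 m) γ_il` is an algebraic integer all of whose
conjugates are bounded by `M^2 m C` (`arch_bound`): finitely many (`NumberField.Embeddings.finite_of_norm_le`). -/
theorem fin_st (hint : ∀ x : E, f x ∈ O → IsIntegral ℤ x) (hden : ∀ z : R, ∃ m : ℕ, 0 < m ∧ (m : R) * z ∈ O)
    (c : E →ₐ[F] E) (hs : ∀ x, s (f x) = f (c x)) (hc : ∀ (τ : E →+* ℂ) x, τ (c x) = conj (τ x))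
    (A : Matrix (Fin n) (Fin n) E) (hA : ∀ τ : E →+* ℂ, Definite (A.map τ)) (sp : Prop)
    (K : Subgroup (Isom (s) (A.map (f)) sp))
    (hK : ∃ m : ℕ, 0 < m ∧ ∀ k ∈ K, ∀ i l, (m : R) *
      ((k : GL (Fin n) (R)) : Matrix (Fin n) (Fin n) (R)) i l ∈ O)
    (g : Isom (s) (A.map (f)) sp) :
    {γ : Isom (c : E →+* E) A sp | g⁻¹ * baseChange (c : E →+* E) (s) (f)
      hs A sp γ * g ∈ K}.Finite := by
  classical
  obtain ⟨m, hm0, hm⟩ := hK
  obtain ⟨M₁, hM₁0, hM₁⟩ := exists_common_den O hden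
    (fun i l => ((g : GL (Fin n) (R)) : Matrix (Fin n) (Fin n) (R)) i l)
  obtain ⟨M₂, hM₂0, hM₂⟩ := exists_common_den O hden
    (fun i l => (((g⁻¹ : Isom (s) (A.map (f)) sp) : GL (Fin n) (R)) :
      Matrix (Fin n) (Fin n) (R)) i l)
  obtain ⟨C, hC⟩ := arch_bound c hc A hA sp
  set N : ℕ := M₁ * m * M₂ with hN
  have hN0 : (N : E) ≠ 0 := by
    have : N ≠ 0 := by positivity
    exact_mod_cast this
  have hT := NumberField.Embeddings.finite_of_norm_le E ℂ (N * C)
  set T : Set E := {x : E | IsIntegral ℤ x ∧ ∀ φ : E →+* ℂ, ‖φ x‖ ≤ N * C} with hTdef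
  have hpi : (Set.pi Set.univ (fun _ : Fin n × Fin n => T)).Finite :=
    Set.Finite.pi fun _ => hT
  have key : ∀ γ : Isom (c : E →+* E) A sp, g⁻¹ * baseChange (c : E →+* E) (s) (f)
      hs A sp γ * g ∈ K → ∀ i l, (N : E) *
        ((γ : GL (Fin n) E) : Matrix (Fin n) (Fin n) E) i l ∈ T := by
    intro γ hγ i l
    refine ⟨?_, fun φ => ?_⟩
    · apply hint
      set k := g⁻¹ * baseChange (c : E →+* E) (s) (f) hs A sp γ * g with hk
      have h1 : baseChange (c : E →+* E) (s) (f) hs A sp γ = g * k * g⁻¹ := by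
        rw [hk]; group
      have h2 : f (((γ : GL (Fin n) E) : Matrix (Fin n) (Fin n) E) i l) =
          (((g : GL (Fin n) (R)) : Matrix (Fin n) (Fin n) (R)) *
            ((k : GL (Fin n) (R)) : Matrix (Fin n) (Fin n) (R)) *
            (((g⁻¹ : Isom (s) (A.map (f)) sp) : GL (Fin n) (R)) :
              Matrix (Fin n) (Fin n) (R))) i l := by
        have h3 : (((baseChange (c : E →+* E) (s) (f) hs A sp γ :
            Isom (s) (A.map (f)) sp) : GL (Fin n) (R)) :
            Matrix (Fin n) (Fin n) (R)) i l =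
            f (((γ : GL (Fin n) E) : Matrix (Fin n) (Fin n) E) i l) := rfl
        rw [← h3, h1]
        rfl
      rw [map_mul, h2, map_natCast, Matrix.mul_apply, Finset.mul_sum]
      refine Subring.sum_mem _ fun b _ => ?_
      rw [Matrix.mul_apply, Finset.sum_mul, Finset.mul_sum]
      refine Subring.sum_mem _ fun a _ => ?_
      have h4 : (N : R) * (((g : GL (Fin n) (R)) : Matrix (Fin n) (Fin n) (R)) i a *
          ((k : GL (Fin n) (R)) : Matrix (Fin n) (Fin n) (R)) a b *
          (((g⁻¹ : Isom (s) (A.map (f)) sp) : GL (Fin n) (R)) :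
              Matrix (Fin n) (Fin n) (R)) b l) =
          ((M₁ : R) * ((g : GL (Fin n) (R)) : Matrix (Fin n) (Fin n) (R)) i a) *
          ((m : R) * ((k : GL (Fin n) (R)) : Matrix (Fin n) (Fin n) (R)) a b) *
          ((M₂ : R) * (((g⁻¹ : Isom (s) (A.map (f)) sp) : GL (Fin n) (R)) :
              Matrix (Fin n) (Fin n) (R)) b l) := by
        rw [hN]; push_cast; ring
      rw [h4]
      exact Subring.mul_mem _ (Subring.mul_mem _ (hM₁ i a) (hm k hγ a b)) (hM₂ b l)
    · rw [map_mul, norm_mul, map_natCast, Complex.norm_natCast]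
      exact mul_le_mul_of_nonneg_left (hC _ γ.2 φ i l) (Nat.cast_nonneg _)
  refine Set.Finite.of_finite_image (f := fun γ : Isom (c : E →+* E) A sp =>
    fun p : Fin n × Fin n => (N : E) * ((γ : GL (Fin n) E) : Matrix (Fin n) (Fin n) E) p.1 p.2)
    (hpi.subset ?_) ?_
  · rintro _ ⟨γ, hγ, rfl⟩ p _
    exact key γ hγ p.1 p.2
  · intro γ _ γ' _ h
    apply Subtype.ext
    apply Matrix.GeneralLinearGroup.ext
    intro i l
    have := congrFun h (i, l)
    exact mul_left_cancel₀ hN0 this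

end Pool.Agent.H497.GP
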