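import Pool.Agent.H497.GP.Lift

set_option autoImplicit false

open scoped TensorProduct Matrix ComplexConjugate
open IsDedekindDomain NumberField

namespace Pool.Agent.H497.GP




variable {Γ G U ι : Type*} [Group Γ] [Group G] [NormedAddCommGroup U] [InnerProductSpace ℂ U]


theorem kappa_out (K : Subgroup G) (κ : G → ℂ) (hκ : IsHecke K κ) (h : G) :
    κ ((h : G ⧸ K).out) = κ h := by
  obtain ⟨k, hk⟩ := QuotientGroup.mk_out_eq_mul K h
  rw [hk]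
  have := hκ.inv h 1 K.one_mem k k.2
  rwa [one_mul] at this

theorem mk_eq_iff_mem (K : Subgroup G) (y : G ⧸ K) (h : G) : (h : G ⧸ K) = y ↔ y.out⁻¹ * h ∈ K := by
  have h1 : (h : G ⧸ K) = y ↔ ((y.out : G) : G ⧸ K) = (h : G ⧸ K) := by
    rw [QuotientGroup.out_eq']
    exact eq_comm
  rw [h1, QuotientGroup.eq]

/-- For `g⁻¹ * j γ * x`, with coset `y` in `G ⧸ K` (`y.out = g⁻¹ * j γ * x * k`), `κ y.out = κ (g⁻¹ * j γ * x)`;
finitely many cosets (`hκ.fin`), finitely many `γ` for each (`lift_fin`). -/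
theorem hecke_fin (j : Γ →* G) (K : Subgroup G) (hst : ∀ g : G, {γ : Γ | g⁻¹ * j γ * g ∈ K}.Finite)
    (κ : G → ℂ) (hκ : IsHecke K κ) (x g : G) : {γ : Γ | κ (g⁻¹ * j γ * x) ≠ 0}.Finite := by
  refine (hκ.fin.biUnion (t := fun y => {γ : Γ | (g * y.out)⁻¹ * j γ * x ∈ K})
    (fun y _ => lift_fin j K hst x (g * y.out))).subset ?_
  intro γ hγ
  rw [Set.mem_ofPred_eq] at hγ
  rw [Set.mem_iUnion₂]
  refine ⟨((g⁻¹ * j γ * x : G) : G ⧸ K), ?_, ?_⟩
  · rw [Set.mem_ofPred_eq, kappa_out K κ hκ]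
    exact hγ
  · rw [Set.mem_ofPred_eq]
    have h1 := (mk_eq_iff_mem K ((g⁻¹ * j γ * x : G) : G ⧸ K) (g⁻¹ * j γ * x)).mp rfl
    have h2 : (g * ((g⁻¹ * j γ * x : G) : G ⧸ K).out)⁻¹ * j γ * x =
        (((g⁻¹ * j γ * x : G) : G ⧸ K).out)⁻¹ * (g⁻¹ * j γ * x) := by group
    rw [h2]
    exact h1

/-- Exchange the two finite sums: `∑_{y} κ(y.out) ∑_{γ : (g y.out)⁻¹ j γ x ∈ K} ρ γ u`, for every `γ` exactly one coset `y`
satisfies `(g * y.out)⁻¹ * j γ * x ∈ K`, namely that of `g⁻¹ * j γ * x`. -/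
theorem hecke_lift (j : Γ →* G) (K : Subgroup G) (hst : ∀ g : G, {γ : Γ | g⁻¹ * j γ * g ∈ K}.Finite)
    (ρ : Γ →* (U ≃ₗᵢ[ℂ] U)) (κ : G → ℂ) (hκ : IsHecke K κ) (x : G) (u : U) (g : G) :
    hecke K κ (lift j K ρ x u) g = ∑ᶠ γ : Γ, κ (g⁻¹ * j γ * x) • ρ γ u := by
  classical
  have hW := hecke_fin j K hst κ hκ x g
  set W : Finset Γ := hW.toFinset with hWdef
  set Y : Finset (G ⧸ K) := hκ.fin.toFinset with hYdef
  have hmem : ∀ (γ : Γ) (y : G ⧸ K), ((g * y.out)⁻¹ * j γ * x ∈ K) ↔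
      ((g⁻¹ * j γ * x : G) : G ⧸ K) = y := by
    intro γ y
    rw [mk_eq_iff_mem]
    have h2 : (g * y.out)⁻¹ * j γ * x = y.out⁻¹ * (g⁻¹ * j γ * x) := by group
    rw [h2]
  have hR : ∑ᶠ γ : Γ, κ (g⁻¹ * j γ * x) • ρ γ u = ∑ γ ∈ W, κ (g⁻¹ * j γ * x) • ρ γ u := by
    refine finsum_eq_sum_of_support_subset _ ?_
    intro γ hγ
    rw [hWdef, Set.Finite.coe_toFinset, Set.mem_ofPred_eq]
    intro h0
    apply hγ
    simp only [h0, zero_smul]
  have hL : hecke K κ (lift j K ρ x u) g =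
      ∑ y ∈ Y, κ y.out • lift j K ρ x u (g * y.out) := by
    unfold hecke
    refine finsum_eq_sum_of_support_subset _ ?_
    intro y hy
    rw [hYdef, Set.Finite.coe_toFinset, Set.mem_ofPred_eq]
    intro h0
    apply hy
    simp only [h0, zero_smul]
  have hmaps : ∀ γ ∈ W, ((g⁻¹ * j γ * x : G) : G ⧸ K) ∈ Y := by
    intro γ hγ
    rw [hWdef, Set.Finite.mem_toFinset, Set.mem_ofPred_eq] at hγ
    rw [hYdef, Set.Finite.mem_toFinset, Set.mem_ofPred_eq, kappa_out K κ hκ]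
    exact hγ
  rw [hR, hL, ← Finset.sum_fiberwise_of_maps_to hmaps]
  refine Finset.sum_congr rfl fun y hy => ?_
  rw [hYdef, Set.Finite.mem_toFinset, Set.mem_ofPred_eq] at hy
  have hl : lift j K ρ x u (g * y.out) =
      ∑ γ ∈ W with ((g⁻¹ * j γ * x : G) : G ⧸ K) = y, ρ γ u := by
    unfold lift
    have e0 : ∑ᶠ (γ : Γ) (_ : (g * y.out)⁻¹ * j γ * x ∈ K), ρ γ u =
        ∑ᶠ (γ : Γ) (_ : γ ∈ {γ : Γ | (g * y.out)⁻¹ * j γ * x ∈ K}), ρ γ u := rfl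
    rw [e0, finsum_mem_def]
    rw [finsum_eq_sum_of_support_subset (s := {γ ∈ W | ((g⁻¹ * j γ * x : G) : G ⧸ K) = y})]
    · refine Finset.sum_congr rfl fun γ hγ => ?_
      rw [Finset.mem_filter] at hγ
      exact Set.indicator_of_mem (s := {γ : Γ | (g * y.out)⁻¹ * j γ * x ∈ K})
        ((hmem γ y).mpr hγ.2) _
    · intro γ hγ
      rw [Finset.coe_filter, Set.mem_ofPred_eq]
      have h1 : γ ∈ {γ : Γ | (g * y.out)⁻¹ * j γ * x ∈ K} := by
        by_contra h0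
        exact hγ (Set.indicator_of_notMem h0 _)
      have h2 := (hmem γ y).mp h1
      refine ⟨?_, h2⟩
      rw [hWdef, Set.Finite.mem_toFinset, Set.mem_ofPred_eq, ← kappa_out K κ hκ, h2]
      exact hy
  rw [hl, Finset.smul_sum]
  refine Finset.sum_congr rfl fun γ hγ => ?_
  rw [Finset.mem_filter] at hγ
  rw [← kappa_out K κ hκ (g⁻¹ * j γ * x), hγ.2]

/-- Reindex the cosets: `y ↦ g y` on `G ⧸ K`, both sides only depend on cosets (`hφ` with `γ = 1`, `hκ.inv` with `k = 1`). -/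
theorem hecke_shift (K : Subgroup G) (κ : G → ℂ) (hκ : IsHecke K κ) (φ : G → U)
    (hφ : ∀ g : G, ∀ k ∈ K, φ (g * k) = φ g) (g : G) :
    hecke K κ φ g = ∑ᶠ y : G ⧸ K, κ (g⁻¹ * y.out) • φ y.out ∧
      {y : G ⧸ K | κ (g⁻¹ * y.out) ≠ 0}.Finite := by
  have hout : ∀ (a : G) (x : G ⧸ K), ∃ k ∈ K, (a • x).out = a * x.out * k := by
    intro a x
    have h1 : a • x = ((a * x.out : G) : G ⧸ K) := by
      conv_lhs => rw [← QuotientGroup.out_eq' x]
      rfl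
    rw [h1]
    obtain ⟨k, hk⟩ := QuotientGroup.mk_out_eq_mul K (a * x.out)
    exact ⟨k, k.2, hk⟩
  have hκr : ∀ h : G, ∀ k ∈ K, κ (h * k) = κ h := by
    intro h k hk
    have := hκ.inv h 1 K.one_mem k hk
    rwa [one_mul] at this
  constructor
  · rw [← finsum_comp_equiv (MulAction.toPerm g : Equiv.Perm (G ⧸ K))]
    unfold hecke
    refine finsum_congr fun x => ?_
    rw [MulAction.toPerm_apply]
    obtain ⟨k, hk, e⟩ := hout g x
    rw [e, hφ _ k hk]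
    have e2 : g⁻¹ * (g * x.out * k) = x.out * k := by group
    rw [e2, hκr _ k hk]
  · refine (hκ.fin.image (fun x : G ⧸ K => g • x)).subset ?_
    intro y hy
    rw [Set.mem_ofPred_eq] at hy
    refine ⟨g⁻¹ • y, ?_, smul_inv_smul g y⟩
    rw [Set.mem_ofPred_eq]
    obtain ⟨k, hk, e⟩ := hout g⁻¹ y
    rw [e, hκr _ k hk]
    exact hy

end Pool.Agent.H497.GP
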