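import Pool.Agent.H497.GP.Defs

set_option autoImplicit false

open scoped TensorProduct Matrix ComplexConjugate
open IsDedekindDomain NumberField

namespace Pool.Agent.H497.GP




variable {F E : Type} [Field F] [NumberField F] [Field E] [NumberField E] [Algebra F E] {n : ℕ}

section Aux

open Polynomial

/-- powers of `x` below the degree of the minimal polynomial stay independent after base change -/
theorem tmul_indep {F E L : Type} [Field F] [Field E] [Algebra F E] [Field L] [Algebra F L] (x : E)
    (r : Fin (minpoly F x).natDegree → L)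
    (h : ∑ i : Fin (minpoly F x).natDegree, (x ^ (i : ℕ)) ⊗ₜ[F] r i = 0) (j : Fin (minpoly F x).natDegree) : r j = 0 := by
  have hli : LinearIndependent F fun i : Fin (minpoly F x).natDegree => x ^ (i : ℕ) :=
    linearIndependent_pow x
  rw [linearIndependent_iff_injective_fintypeLinearCombination] at hli
  obtain ⟨g, hg⟩ := LinearMap.exists_leftInverse_of_injective
    (Fintype.linearCombination F fun i : Fin (minpoly F x).natDegree => x ^ (i : ℕ))
    (LinearMap.ker_eq_bot.2 hli)
  have hgi : ∀ i : Fin (minpoly F x).natDegree, g (x ^ (i : ℕ)) = Pi.single i 1 := by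
    intro i
    have h1 := LinearMap.congr_fun hg (Pi.single i (1 : F))
    rw [LinearMap.comp_apply, LinearMap.id_apply] at h1
    simpa [Fintype.linearCombination_apply_single] using h1
  have h2 := congrArg (TensorProduct.lift
    ((LinearMap.lsmul F L).comp ((LinearMap.proj j).comp g))) h
  rw [map_sum, map_zero] at h2
  simp only [TensorProduct.lift.tmul, LinearMap.comp_apply, hgi, LinearMap.proj_apply,
    LinearMap.lsmul_apply] at h2
  rw [Finset.sum_eq_single j] at h2
  · simpa using h2
  · intro i _ hij
    rw [Pi.single_eq_of_ne hij.symm, zero_smul]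
  · intro h3
    exact absurd (Finset.mem_univ j) h3

/-- the minimal polynomial generates the relations over an extension -/
theorem minpoly_dvd {F E L : Type} [Field F] [Field E] [Algebra F E] [Field L] [Algebra F L] (x : E)
    (hx : IsIntegral F x) (P : L[X])
    (h : P.eval₂ (Algebra.TensorProduct.includeRight : L →ₐ[F] E ⊗[F] L).toRingHom
      (x ⊗ₜ[F] (1 : L)) = 0) : (minpoly F x).map (algebraMap F L) ∣ P := by
  have hm : ((minpoly F x).map (algebraMap F L)).Monic := (minpoly.monic hx).map _
  rw [← modByMonic_eq_zero_iff_dvd hm]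
  set m := (minpoly F x).map (algebraMap F L) with hmd
  set R := P %ₘ m with hR
  have h0 : m.eval₂ (Algebra.TensorProduct.includeRight : L →ₐ[F] E ⊗[F] L).toRingHom
      (x ⊗ₜ[F] (1 : L)) = 0 := by
    rw [hmd, eval₂_map]
    have e1 : ((Algebra.TensorProduct.includeRight : L →ₐ[F] E ⊗[F] L).toRingHom).comp
        (algebraMap F L) = ((Algebra.TensorProduct.includeLeft : E →ₐ[F] E ⊗[F] L).toRingHom).comp
        (algebraMap F E) := by
      ext a
      simp
    rw [e1]
    have e2 : (x ⊗ₜ[F] (1 : L)) =
      ((Algebra.TensorProduct.includeLeft : E →ₐ[F] E ⊗[F] L).toRingHom) x := rfl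
    rw [e2, ← hom_eval₂]
    have e3 : eval₂ (algebraMap F E) x (minpoly F x) = 0 := minpoly.aeval F x
    rw [e3, map_zero]
  have h1 : R.eval₂ (Algebra.TensorProduct.includeRight : L →ₐ[F] E ⊗[F] L).toRingHom
      (x ⊗ₜ[F] (1 : L)) = 0 := by
    have h2 := modByMonic_add_div P m
    rw [← h2, eval₂_add, eval₂_mul, h0, zero_mul, add_zero] at h
    exact h
  have hdeg : R.natDegree < m.natDegree ∨ R = 0 := by
    by_cases hR0 : R = 0
    · exact Or.inr hR0
    · refine Or.inl ?_
      exact natDegree_lt_natDegree hR0 (degree_modByMonic_lt P hm)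
  rcases hdeg with hdeg | hdeg
  swap
  · exact hdeg
  have hmn : m.natDegree = (minpoly F x).natDegree := natDegree_map _
  rw [hmn] at hdeg
  rw [eval₂_eq_sum_range' _ hdeg, ← Fin.sum_univ_eq_sum_range
    (fun i => (Algebra.TensorProduct.includeRight : L →ₐ[F] E ⊗[F] L).toRingHom (R.coeff i) *
      (x ⊗ₜ[F] (1 : L)) ^ i)] at h1
  have h2 := tmul_indep x (fun i => R.coeff i) (by
    rw [← h1]
    refine Finset.sum_congr rfl fun i _ => ?_
    simp [Algebra.TensorProduct.tmul_pow])
  ext i
  rw [coeff_zero]
  by_cases hi : i < (minpoly F x).natDegree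
  · exact h2 ⟨i, hi⟩
  · exact coeff_eq_zero_of_natDegree_lt (by omega)

end Aux


/-- Every element of `OE F E` is integral over the subring of integral adeles of `F` (`Subring.closure_induction`; the set of
integral elements is a subring; use `Algebra.TensorProduct.rightAlgebra` or map to the place `v` first). For every finite
place `v` of `F` map `𝔸_F → F_v` (`a ↦ a v`): `x ⊗ 1` in `E ⊗[F] F_v` is a root of a monic polynomial `P` over
`O_v = v.adicCompletionIntegers F`. So `minpoly F x` (mapped to `F_v[X]`) divides `P` (the kernel of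
`F_v[X] → E ⊗ F_v`, `X ↦ x ⊗ 1` is generated by the minimal polynomial: `1, x, .., x^(d-1)` are `F`-linearly independent, hence
their images are `F_v`-linearly independent, e.g. `LinearIndependent.tmul..`/`Basis.baseChange`, divide `P` by the monic
`minpoly`, the remainder is zero). By Gauss' lemma (`IsIntegrallyClosed.eq_map_mul_C_of_dvd` for the integrally closed domain
`O_v`) the coefficients of `minpoly F x` are in `O_v`, for all `v`, so in `𝓞 F`
(`HeightOneSpectrum.mem_integers_of_valuation_le_one`), so `x` is integral over `𝓞 F`, so over `ℤ`. Any other proof is welcome. -/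
theorem int_of_mem_OE (x : E) (h : inc F E x ∈ OE F E) : IsIntegral ℤ x := by
  have hxF : IsIntegral F x := Algebra.IsIntegral.isIntegral x
  -- the coefficients of the minimal polynomial are integral
  have key : ∀ i, (minpoly F x).coeff i ∈ (algebraMap (𝓞 F) F).range := by
    intro i
    apply HeightOneSpectrum.mem_integers_of_valuation_le_one
    intro v
    let ev : AF F →ₐ[F] v.adicCompletion F :=
      { toFun := fun a => a v
        map_one' := rfl
        map_mul' := fun _ _ => rfl
        map_zero' := rfl
        map_add' := fun _ _ => rfl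
        commutes' := fun _ => rfl }
    let Φ : AE F E →ₐ[F] E ⊗[F] v.adicCompletion F :=
      Algebra.TensorProduct.map (AlgHom.id F E) ev
    let f : v.adicCompletionIntegers F →+* E ⊗[F] v.adicCompletion F :=
      ((Algebra.TensorProduct.includeRight :
        v.adicCompletion F →ₐ[F] E ⊗[F] v.adicCompletion F).toRingHom).comp
        (algebraMap (v.adicCompletionIntegers F) (v.adicCompletion F))
    have hOE : ∀ z ∈ OE F E, f.IsIntegralElem (Φ z) := by
      intro z hz
      refine Subring.closure_induction (p := fun z _ => f.IsIntegralElem (Φ z)) ?_ ?_ ?_ ?_ ?_ ?_ hz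
      · rintro z (⟨y, rfl⟩ | ⟨a, ha, rfl⟩)
        · have e1 : Φ ((y : E) ⊗ₜ[F] (1 : AF F)) =
              (Algebra.TensorProduct.includeLeft :
                E →ₐ[F] E ⊗[F] v.adicCompletion F).toRingHom (y : E) := by
            simp [Φ]
          rw [e1]
          obtain ⟨p, hp1, hp2⟩ := RingOfIntegers.isIntegral_coe y
          refine ⟨p.map (Int.castRingHom _), hp1.map _, ?_⟩
          rw [Polynomial.eval₂_map]
          have e2 : f.comp (Int.castRingHom (v.adicCompletionIntegers F)) =
              ((Algebra.TensorProduct.includeLeft :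
                E →ₐ[F] E ⊗[F] v.adicCompletion F).toRingHom).comp (algebraMap ℤ E) :=
            RingHom.ext_int _ _
          rw [e2, ← Polynomial.hom_eval₂, hp2, map_zero]
        · have e1 : Φ ((1 : E) ⊗ₜ[F] a) = f ⟨a v, ha v⟩ := by
            simp [Φ, f, ev]
          rw [e1]
          exact f.isIntegralElem_map
      · rw [map_zero]; exact f.isIntegralElem_zero
      · rw [map_one]; exact f.isIntegralElem_one
      · intro a b _ _ ha hb; rw [map_add]; exact ha.add f hb
      · intro a _ ha; rw [map_neg]; exact ha.neg f
      · intro a b _ _ ha hb; rw [map_mul]; exact ha.mul f hb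
    obtain ⟨P, hP1, hP2⟩ := hOE _ h
    have e1 : Φ (inc F E x) = x ⊗ₜ[F] (1 : v.adicCompletion F) := by simp [Φ, inc]
    rw [e1] at hP2
    have h3 : (minpoly F x).map (algebraMap F (v.adicCompletion F)) ∣
        P.map (algebraMap (v.adicCompletionIntegers F) (v.adicCompletion F)) :=
      minpoly_dvd x hxF _ (by rw [Polynomial.eval₂_map]; exact hP2)
    obtain ⟨g, hg⟩ := IsIntegrallyClosed.eq_map_mul_C_of_dvd (v.adicCompletion F) hP1 h3
    rw [((minpoly.monic hxF).map (algebraMap F (v.adicCompletion F))).leadingCoeff,
      Polynomial.C_1, mul_one] at hg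
    have h4 := congrArg (fun p => Polynomial.coeff p i) hg
    simp only [Polynomial.coeff_map] at h4
    have h5 := (g.coeff i).2
    rw [HeightOneSpectrum.mem_adicCompletionIntegers] at h5
    change Valued.v (algebraMap (v.adicCompletionIntegers F) (v.adicCompletion F) (g.coeff i)) ≤ 1
      at h5
    rw [h4] at h5
    change Valued.v (((minpoly F x).coeff i : F) : v.adicCompletion F) ≤ 1 at h5
    rwa [HeightOneSpectrum.valuedAdicCompletion_eq_valuation'] at h5
  have h1 : IsIntegral (𝓞 F) x := by
    have h2 : minpoly F x ∈ Polynomial.lifts (algebraMap (𝓞 F) F) := by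
      rw [Polynomial.lifts_iff_coeff_lifts]
      intro n
      exact key n
    obtain ⟨p, hp1, _, hp2⟩ := Polynomial.lifts_and_natDegree_eq_and_monic h2 (minpoly.monic hxF)
    refine ⟨p, hp2, ?_⟩
    rw [IsScalarTower.algebraMap_eq (𝓞 F) F E, ← Polynomial.eval₂_map, hp1]
    exact minpoly.aeval F x
  exact isIntegral_trans x h1

end Pool.Agent.H497.GP
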