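import Pool.Agent.H497.GP.Stable

set_option autoImplicit false

open scoped TensorProduct Matrix ComplexConjugate
open IsDedekindDomain NumberField

namespace Pool.Agent.H497.GP

section

variable {F E : Type} [Field F] [NumberField F] [Field E] [NumberField E] [Algebra F E] {n : ℕ}

omit [NumberField E] in
theorem inc_mem (x : E) (hx : IsIntegral ℤ x) : inc F E x ∈ OE F E := by
  apply Subring.subset_closure
  left
  obtain ⟨y, hy⟩ : ∃ y : 𝓞 E, (y : E) = x := ⟨⟨x, hx⟩, rfl⟩
  exact ⟨y, by rw [hy]; rfl⟩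

theorem cA_mem (c : E →ₐ[F] E) (z : AE F E) (hz : z ∈ OE F E) : cA F E c z ∈ OE F E := by
  unfold OE at hz
  induction hz using Subring.closure_induction with
  | mem x hx =>
    rcases hx with ⟨x, rfl⟩ | ⟨a, ha, rfl⟩
    · have : cA F E c ((x : E) ⊗ₜ[F] (1 : AF F)) = inc F E (c x) := by
        have := cA_inc c (x : E)
        exact this
      rw [this]
      exact inc_mem _ ((x.2).map (c : E →+* E).toIntAlgHom)
    · have : cA F E c ((1 : E) ⊗ₜ[F] a) = (1 : E) ⊗ₜ[F] a := by
        simp [cA]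
      rw [this]
      exact Subring.subset_closure (Or.inr ⟨a, ha, rfl⟩)
  | zero => rw [map_zero]; exact zero_mem _
  | one => rw [map_one]; exact one_mem _
  | add x y _ _ hx hy => rw [map_add]; exact add_mem hx hy
  | neg x _ hx => rw [map_neg]; exact neg_mem hx
  | mul x y _ _ hx hy => rw [map_mul]; exact mul_mem hx hy

end

section

variable {n : ℕ} {S : Type*} [CommRing S] (s : S →+* S) (A : Matrix (Fin n) (Fin n) S)

theorem f_sub_left (x x' y : Fin n → S) : form s A (x - x') y = form s A x y - form s A x' y := by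
  unfold form
  rw [← sub_dotProduct]
  congr 1
  funext i
  simp

theorem f_sub_right (x y y' : Fin n → S) : form s A x (y - y') = form s A x y - form s A x y' := by
  unfold form
  rw [Matrix.mulVec_sub, dotProduct_sub]

theorem f_smul_left (t : S) (x y : Fin n → S) : form s A (t • x) y = s t * form s A x y := by
  unfold form
  rw [← smul_eq_mul (s t), ← smul_dotProduct]
  congr 1
  funext i
  simp

theorem f_smul_right (t : S) (x y : Fin n → S) : form s A x (t • y) = t * form s A x y := by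
  unfold form
  rw [Matrix.mulVec_smul, dotProduct_smul, smul_eq_mul]

end


variable {E : Type} [Field E] [NumberField E] {n : ℕ}
  {R : Type} [CommRing R] (s : R →+* R) (f : E →+* R) (O : Subring R)

omit [NumberField E] in
theorem form_mem (hf : ∀ x : E, IsIntegral ℤ x → f x ∈ O) (hsO : ∀ z ∈ O, s z ∈ O) (A : Matrix (Fin n) (Fin n) E) (hA : ∀ i l, IsIntegral ℤ (A i l))
    (x y : Fin n → R) (hx : ∀ i, x i ∈ O) (hy : ∀ i, y i ∈ O) :
    form (s) (A.map (f)) x y ∈ O := by
  unfold form dotProduct Matrix.mulVec dotProduct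
  refine sum_mem fun i _ => mul_mem (hsO _ (hx i)) (sum_mem fun l _ => mul_mem ?_ (hy l))
  show f (A i l) ∈ O
  exact hf _ (hA i l)

/-- The range condition for the principal congruence level `N` and denominators `D` prime to `N`. -/
theorem level_range (hf : ∀ x : E, IsIntegral ℤ x → f x ∈ O) (hsO : ∀ z ∈ O, s z ∈ O) (A : Matrix (Fin n) (Fin n) E) (sp : Prop) (e : Fin n → E)
    (hA : ∀ i l, IsIntegral ℤ (A i l)) (he : ∀ i, IsIntegral ℤ (e i)) (D N : ℕ) (hN : 0 < N)
    (hDN : D.Coprime N)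
    (g : Isom (s) (A.map (f)) sp)
    (hg : ∀ i l, ∃ z ∈ O, (D : R) * ((((g : GL (Fin n) (R)) : Matrix (Fin n) (Fin n) (R)) i l) -
      (1 : Matrix (Fin n) (Fin n) (R)) i l) = (N : R) * z) :
    ∃ z ∈ O, (D : R) * rg s f A sp e g = ((N ^ 2 : ℕ) : R) * z := by
  classical
  choose Z hZ hZeq using hg
  obtain ⟨ē, hē⟩ : ∃ ē : Fin n → R, ē = fun i => f (e i) := ⟨_, rfl⟩
  have hēm : ∀ i, ē i ∈ O := fun i => by rw [hē]; exact hf _ (he i)
  obtain ⟨G, hG⟩ : ∃ G : Matrix (Fin n) (Fin n) (R),
      G = ((g : GL (Fin n) (R)) : Matrix (Fin n) (Fin n) (R)) := ⟨_, rfl⟩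
  obtain ⟨w, hw⟩ : ∃ w : Fin n → R, w = G *ᵥ ē - ē := ⟨_, rfl⟩
  obtain ⟨y, hy⟩ : ∃ y : Fin n → R, y = fun i => ∑ l, Z i l * ē l := ⟨_, rfl⟩
  have hym : ∀ i, y i ∈ O := fun i => by
    rw [hy]; exact sum_mem fun l _ => mul_mem (hZ i l) (hēm l)
  have hDw : (D : R) • w = (N : R) • y := by
    funext i
    have h1 : w i = ∑ l, (G i l - (1 : Matrix (Fin n) (Fin n) (R)) i l) * ē l := by
      rw [hw]
      simp only [Pi.sub_apply, Matrix.mulVec, dotProduct, sub_mul, Finset.sum_sub_distrib]
      congr 1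
      have := congrFun (Matrix.one_mulVec ē) i
      rw [Matrix.mulVec, dotProduct] at this
      exact this.symm
    rw [Pi.smul_apply, Pi.smul_apply, smul_eq_mul, smul_eq_mul, h1, hy, Finset.mul_sum, Finset.mul_sum]
    refine Finset.sum_congr rfl fun l _ => ?_
    rw [← mul_assoc, hG, hZeq i l, mul_assoc]
  have hr : rg s f A sp e g = form (s) (A.map (f)) w w := by
    unfold rg
    rw [hw, hē, hG]
  have hiso : form (s) (A.map (f)) (G *ᵥ ē) (G *ᵥ ē) = form (s) (A.map (f)) ē ē := by
    rw [hG]; exact form_isom _ _ sp g ē ē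
  have hr2 : form (s) (A.map (f)) w w =
      -(form (s) (A.map (f)) w ē + form (s) (A.map (f)) ē w) := by
    rw [hw]
    simp only [f_sub_left, f_sub_right]
    rw [hiso]
    ring
  have hsD : s (D : R) = (D : R) := map_natCast _ _
  have hsN : s (N : R) = (N : R) := map_natCast _ _
  obtain ⟨b, hb, hb'⟩ : ∃ b ∈ O, (D : R) * ((D : R) * form (s) (A.map (f)) w w) =
      (N : R) * ((N : R) * b) := by
    refine ⟨form (s) (A.map (f)) y y, form_mem s f O hf hsO A hA y y hym hym, ?_⟩
    have h1 : form (s) (A.map (f)) ((D : R) • w) ((D : R) • w) =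
        form (s) (A.map (f)) ((N : R) • y) ((N : R) • y) := by rw [hDw]
    rw [f_smul_left, f_smul_right, f_smul_left, f_smul_right, hsD, hsN] at h1
    exact h1
  obtain ⟨a, ha, ha'⟩ : ∃ a ∈ O, (D : R) * form (s) (A.map (f)) w w =
      (N : R) * a := by
    refine ⟨-(form (s) (A.map (f)) y ē + form (s) (A.map (f)) ē y),
      neg_mem (add_mem (form_mem s f O hf hsO A hA _ _ hym hēm) (form_mem s f O hf hsO A hA _ _ hēm hym)), ?_⟩
    have h1 : form (s) (A.map (f)) ((D : R) • w) ē =
        form (s) (A.map (f)) ((N : R) • y) ē := by rw [hDw]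
    have h2 : form (s) (A.map (f)) ē ((D : R) • w) =
        form (s) (A.map (f)) ē ((N : R) • y) := by rw [hDw]
    rw [f_smul_left, f_smul_left, hsD, hsN] at h1
    rw [f_smul_right, f_smul_right] at h2
    rw [hr2]
    linear_combination -h1 - h2
  have hu : f ((N : E)⁻¹) * (N : R) = 1 := by
    have hN0 : (N : E) ≠ 0 := by exact_mod_cast hN.ne'
    rw [← map_natCast (f), ← map_mul, inv_mul_cancel₀ hN0, map_one]
  have hDa : (D : R) * a = (N : R) * b := by
    rw [ha'] at hb'
    have h1 : (N : R) * ((D : R) * a) = (N : R) * ((N : R) * b) := by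
      rw [← hb']; ring
    calc (D : R) * a = f ((N : E)⁻¹) * (N : R) * ((D : R) * a) := by rw [hu, one_mul]
      _ = f ((N : E)⁻¹) * ((N : R) * ((N : R) * b)) := by rw [mul_assoc, h1]
      _ = (N : R) * b := by rw [← mul_assoc, hu, one_mul]
  obtain ⟨u, v, huv⟩ : ∃ u v : ℤ, u * D + v * N = 1 := by
    have := Nat.isCoprime_iff_coprime.2 hDN
    obtain ⟨u, v, h⟩ := this
    exact ⟨u, v, h⟩
  have huv' : (u : R) * D + v * N = 1 := by exact_mod_cast congrArg (Int.cast : ℤ → R) huv
  refine ⟨(u : R) * b + v * a, add_mem (mul_mem (intCast_mem _ _) hb) (mul_mem (intCast_mem _ _) ha), ?_⟩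
  rw [hr, ha']
  push_cast
  have h3 : a = (N : R) * ((u : R) * b + v * a) := by
    calc a = ((u : R) * D + v * N) * a := by rw [huv', one_mul]
      _ = (u : R) * ((D : R) * a) + v * N * a := by ring
      _ = _ := by rw [hDa]; ring
  calc (N : R) * a = (N : R) * ((N : R) * ((u : R) * b + v * a)) := by rw [← h3]
    _ = _ := by ring

end Pool.Agent.H497.GP
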