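import Pool.Agent.H497.GP.Defs

set_option autoImplicit false

open scoped TensorProduct Matrix ComplexConjugate
open IsDedekindDomain NumberField

namespace Pool.Agent.H497.GP




variable {Γ G U ι : Type*} [Group Γ] [Group G] [NormedAddCommGroup U] [InnerProductSpace ℂ U]


/-- The sum in `lift` is finite: two such `γ` differ by `γ⁻¹ γ'` with `x⁻¹ * j (γ⁻¹ * γ') * x ∈ K`. -/
theorem lift_fin (j : Γ →* G) (K : Subgroup G) (hst : ∀ g : G, {γ : Γ | g⁻¹ * j γ * g ∈ K}.Finite) (x g : G) :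
    {γ : Γ | g⁻¹ * j γ * x ∈ K}.Finite := by
  by_cases h : {γ : Γ | g⁻¹ * j γ * x ∈ K}.Nonempty
  · obtain ⟨γ₀, h0⟩ := h
    have h0' : g⁻¹ * j γ₀ * x ∈ K := h0
    refine ((hst x).image (fun γ => γ₀ * γ)).subset ?_
    intro γ hγ
    have hγ' : g⁻¹ * j γ * x ∈ K := hγ
    refine ⟨γ₀⁻¹ * γ, ?_, by simp⟩
    show x⁻¹ * j (γ₀⁻¹ * γ) * x ∈ K
    have e : x⁻¹ * j (γ₀⁻¹ * γ) * x = (g⁻¹ * j γ₀ * x)⁻¹ * (g⁻¹ * j γ * x) := by
      rw [map_mul, map_inv]; group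
    rw [e]
    exact K.mul_mem (K.inv_mem h0') hγ'
  · rw [Set.not_nonempty_iff_eq_empty.mp h]
    exact Set.finite_empty

/-- `lift` at `j γ₀ * g * k`. -/
theorem lift_eq (j : Γ →* G) (K : Subgroup G) (ρ : Γ →* (U ≃ₗᵢ[ℂ] U)) (x : G) (u : U)
    (hst : ∀ g : G, {γ : Γ | g⁻¹ * j γ * g ∈ K}.Finite) (γ₀ : Γ) (g k : G) (hk : k ∈ K) :
    lift j K ρ x u (j γ₀ * g * k) = ρ γ₀ (lift j K ρ x u g) := by
  classical
  unfold lift
  have hfin := lift_fin j K hst x g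
  have hfin' := lift_fin j K hst x (j γ₀ * g * k)
  have key : ∀ γ : Γ, (j γ₀ * g * k)⁻¹ * j (γ₀ * γ) * x ∈ K ↔ g⁻¹ * j γ * x ∈ K := by
    intro γ
    have e : (j γ₀ * g * k)⁻¹ * j (γ₀ * γ) * x = k⁻¹ * (g⁻¹ * j γ * x) := by
      rw [map_mul]; group
    rw [e]
    exact K.mul_mem_cancel_left (K.inv_mem hk)
  rw [← finsum_comp_equiv (Equiv.mulLeft γ₀)]
  have e1 : ∀ γ : Γ, (∑ᶠ (_ : (j γ₀ * g * k)⁻¹ * j ((Equiv.mulLeft γ₀) γ) * x ∈ K),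
      ρ ((Equiv.mulLeft γ₀) γ) u) = ρ γ₀ (∑ᶠ (_ : g⁻¹ * j γ * x ∈ K), ρ γ u) := by
    intro γ
    rw [Equiv.coe_mulLeft]
    by_cases h : g⁻¹ * j γ * x ∈ K
    · rw [finsum_eq_if, finsum_eq_if, if_pos h, if_pos ((key γ).mpr h), map_mul]
      rfl
    · rw [finsum_eq_if, finsum_eq_if, if_neg h, if_neg (fun h' => h ((key γ).mp h')), map_zero]
  rw [finsum_congr e1]
  have := (ρ γ₀).toLinearEquiv.toAddEquiv.toAddMonoidHom.map_finsum
    (f := fun γ => ∑ᶠ (_ : g⁻¹ * j γ * x ∈ K), ρ γ u) (by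
      refine hfin.subset ?_
      intro γ hγ
      by_contra hc
      apply hγ
      have hc' : ¬ (g⁻¹ * j γ * x ∈ K) := hc
      show (∑ᶠ (_ : g⁻¹ * j γ * x ∈ K), ρ γ u) = 0
      rw [finsum_eq_if, if_neg hc'])
  exact this.symm

theorem lift_ne (j : Γ →* G) (K : Subgroup G) (ρ : Γ →* (U ≃ₗᵢ[ℂ] U)) (x : G) (u : U) (s : G)
    (h : lift j K ρ x u s ≠ 0) : ∃ γ : Γ, ∃ k ∈ K, x = j γ * s * k := by
  classical
  unfold lift at h
  obtain ⟨γ, hγ⟩ : ∃ γ : Γ, (∑ᶠ (_ : s⁻¹ * j γ * x ∈ K), ρ γ u) ≠ 0 := by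
    by_contra hc
    push Not at hc
    exact h (by rw [finsum_congr hc]; exact finsum_zero)
  have hk : s⁻¹ * j γ * x ∈ K := by
    by_contra hc
    apply hγ
    rw [finsum_eq_if, if_neg hc]
  refine ⟨γ⁻¹, s⁻¹ * j γ * x, hk, ?_⟩
  rw [map_inv]; group

/-- Only the representative `s ∈ S` of `x` has `lift j K ρ x u s ≠ 0`. -/
theorem lift_form (j : Γ →* G) (K : Subgroup G) (S : Set G) (hS : Reps j K S)
    (hst : ∀ g : G, {γ : Γ | g⁻¹ * j γ * g ∈ K}.Finite) (ρ : Γ →* (U ≃ₗᵢ[ℂ] U)) (x : G) (u : U) :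
    IsForm j K S ρ (lift j K ρ x u) := by
  refine ⟨fun γ g k hk => lift_eq j K ρ x u hst γ g k hk, ?_⟩
  apply Set.Subsingleton.finite
  rintro s ⟨hs, hs'⟩ t ⟨ht, ht'⟩
  exact (hS x).unique ⟨hs, lift_ne j K ρ x u s hs'⟩ ⟨ht, lift_ne j K ρ x u t ht'⟩

/-- `⟨lift x u, φ⟩`: only the representative `s` of `x` contributes, there are `st j K s` elements `γ` with
`s⁻¹ * j γ * x ∈ K`, and `⟨ρ γ u, φ s⟩ = ⟨u, ρ γ⁻¹ (φ s)⟩ = ⟨u, φ x⟩` for each (`IsForm.eq`). -/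
theorem ip_lift (j : Γ →* G) (K : Subgroup G) (S : Set G) (hS : Reps j K S)
    (hst : ∀ g : G, {γ : Γ | g⁻¹ * j γ * g ∈ K}.Finite) (ρ : Γ →* (U ≃ₗᵢ[ℂ] U)) (x : G) (u : U)
    (φ : G → U) (hφ : ∀ (γ : Γ) (g : G), ∀ k ∈ K, φ (j γ * g * k) = ρ γ (φ g)) :
    ip j K S (lift j K ρ x u) φ = inner ℂ u (φ x) := by
  classical
  obtain ⟨s, ⟨hsS, γ₀, k₀, hk₀, hx⟩, huniq⟩ := hS x
  unfold ip
  have hz : ∀ t : G, t ≠ s → (∑ᶠ (_ : t ∈ S), inner ℂ (lift j K ρ x u t) (φ t) / (st j K t : ℂ)) = 0 := by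
    intro t ht
    rw [finsum_eq_if]
    split_ifs with h
    · have : lift j K ρ x u t = 0 := by
        by_contra hc
        exact ht (huniq t ⟨h, lift_ne j K ρ x u t hc⟩)
      rw [this, inner_zero_left, zero_div]
    · rfl
  rw [finsum_eq_single _ s hz, finsum_eq_if, if_pos hsS]
  have hfin := lift_fin j K hst x s
  have hl : lift j K ρ x u s = ∑ γ ∈ hfin.toFinset, ρ γ u := by
    unfold lift
    exact finsum_mem_eq_finite_toFinset_sum (fun γ : Γ => ρ γ u) (s := {γ : Γ | s⁻¹ * j γ * x ∈ K}) hfin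
  rw [hl, sum_inner]
  have hin : ∀ γ ∈ hfin.toFinset, inner ℂ (ρ γ u) (φ s) = inner ℂ u (φ x) := by
    intro γ hγ
    have hk : s⁻¹ * j γ * x ∈ K := by
      have := (hfin.mem_toFinset).mp hγ
      exact this
    have hx' : x = j γ⁻¹ * s * (s⁻¹ * j γ * x) := by rw [map_inv]; group
    have h1 : φ x = ρ γ⁻¹ (φ s) := by
      rw [← hφ γ⁻¹ s _ hk, ← hx']
    have h2 : ρ γ (φ x) = φ s := by
      rw [h1]
      have : ρ γ (ρ γ⁻¹ (φ s)) = (ρ γ * ρ γ⁻¹) (φ s) := rfl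
      rw [this, ← map_mul, mul_inv_cancel, map_one]
      rfl
    rw [← h2, LinearIsometryEquiv.inner_map_map]
  rw [Finset.sum_congr rfl hin, Finset.sum_const]
  have hcard : hfin.toFinset.card = st j K s := by
    unfold st
    rw [← Nat.card_eq_card_finite_toFinset hfin]
    refine Nat.card_congr ((Equiv.mulRight γ₀).subtypeEquiv ?_)
    intro γ
    rw [Equiv.coe_mulRight]
    show s⁻¹ * j γ * x ∈ K ↔ s⁻¹ * j (γ * γ₀) * s ∈ K
    have e : s⁻¹ * j γ * x = (s⁻¹ * j (γ * γ₀) * s) * k₀ := by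
      rw [hx, map_mul]; group
    rw [e]
    exact K.mul_mem_cancel_right hk₀
  rw [hcard]
  have hne : (st j K s : ℂ) ≠ 0 := by
    have : st j K s ≠ 0 := by
      unfold st
      have : Finite {γ : Γ // s⁻¹ * j γ * s ∈ K} := (hst s).to_subtype
      have : Nonempty {γ : Γ // s⁻¹ * j γ * s ∈ K} := ⟨⟨1, by simp [K.one_mem]⟩⟩
      exact Nat.card_pos.ne'
    exact_mod_cast this
  rw [nsmul_eq_mul, mul_div_assoc, mul_comm, div_mul_cancel₀ _ hne]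

end Pool.Agent.H497.GP
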