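import Pool.Agent.H497.GP.Defs

set_option autoImplicit false

open scoped TensorProduct Matrix ComplexConjugate
open IsDedekindDomain NumberField

namespace Pool.Agent.H497.GP

/-- A totally definite space `V = E^n` with a nonzero vector `e`; `W` is the orthogonal complement of `e`. `c` is an
involution of `E` with fixed field `F` which is complex conjugation in every embedding (so `F` is totally real, and `E = F`
or `E` is a CM field), and the form `A` is hermitian and definite at every embedding. -/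
structure DefPair where
  F : Type
  E : Type
  [fF : Field F]
  [nF : NumberField F]
  [fE : Field E]
  [nE : NumberField E]
  [alg : Algebra F E]
  n : ℕ
  c : E →ₐ[F] E
  A : Matrix (Fin n) (Fin n) E
  e : Fin n → E
  invol : ∀ x, c (c x) = x
  fixed : ∀ x, c x = x → x ∈ Set.range (algebraMap F E)
  cc : ∀ (τ : E →+* ℂ) x, τ (c x) = starRingEnd ℂ (τ x)
  definite : ∀ τ : E →+* ℂ, Definite (A.map τ)
  ne : e ≠ 0

namespace DefPair

attribute [instance] DefPair.fF DefPair.nF DefPair.fE DefPair.nE DefPair.alg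

variable (P : DefPair)

/-- The finite adeles of `F`. -/
def Ad : Type := FiniteAdeleRing (𝓞 P.F) P.F

noncomputable instance : CommRing P.Ad := (inferInstance : CommRing (FiniteAdeleRing (𝓞 P.F) P.F))

noncomputable instance : Algebra P.F P.Ad := (inferInstance : Algebra P.F (FiniteAdeleRing (𝓞 P.F) P.F))

/-- The component of an adele at a finite place. -/
def comp (a : P.Ad) (v : HeightOneSpectrum (𝓞 P.F)) : v.adicCompletion P.F :=
  (show FiniteAdeleRing (𝓞 P.F) P.F from a) v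

/-- The finite adeles of `E`: `E ⊗ 𝔸_F`. -/
def R : Type := P.E ⊗[P.F] P.Ad

noncomputable instance : CommRing P.R := (inferInstance : CommRing (P.E ⊗[P.F] P.Ad))

/-- The adele `x ⊗ a`. -/
noncomputable def t (x : P.E) (a : P.Ad) : P.R := (x ⊗ₜ[P.F] a : P.E ⊗[P.F] P.Ad)

/-- The inclusion of `E`. -/
noncomputable def inc : P.E →+* P.R :=
  (Algebra.TensorProduct.includeLeft : P.E →ₐ[P.F] P.E ⊗[P.F] P.Ad).toRingHom

/-- `c ⊗ 1`. -/
noncomputable def s : P.R →+* P.R :=
  (Algebra.TensorProduct.map P.c (AlgHom.id P.F P.Ad)).toRingHom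

/-- The integral adeles: the ring generated by the integers of `E` and the integral adeles of `F`. -/
noncomputable def O : Subring P.R :=
  Subring.closure ({z | ∃ x : P.E, IsIntegral ℤ x ∧ z = P.t x 1} ∪
    {z | ∃ a : P.Ad, (∀ v, P.comp a v ∈ v.adicCompletionIntegers P.F) ∧ z = P.t 1 a})

/-- `G(V)(F)`: isometries of `V`, of determinant one if `E = F`. -/
def Vf : Subgroup (GL (Fin P.n) P.E) := Isom (P.c : P.E →+* P.E) P.A (P.c = AlgHom.id P.F P.E)

/-- `G(V)(𝔸)`, `𝔸` the finite adeles of `F`. -/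
noncomputable def Va : Subgroup (GL (Fin P.n) P.R) := Isom P.s (P.A.map P.inc) (P.c = AlgHom.id P.F P.E)

/-- The group `G(V)(F)`. -/
def Γ : Type := P.Vf

instance : Group P.Γ := (inferInstance : Group P.Vf)

/-- The group `G(V)(𝔸)`. -/
def G : Type := P.Va

noncomputable instance : Group P.G := (inferInstance : Group P.Va)

/-- An element of `G(V)(F)` in `GL_n`. -/
def glF (γ : P.Γ) : GL (Fin P.n) P.E := (show P.Vf from γ).1

/-- An element of `G(V)(𝔸)` in `GL_n`. -/
def gl (g : P.G) : GL (Fin P.n) P.R := (show P.Va from g).1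

/-- The matrix of an element of `G(V)(F)`. -/
def matF (γ : P.Γ) : Matrix (Fin P.n) (Fin P.n) P.E := (P.glF γ).1

/-- The matrix of an element of `G(V)(𝔸)`. -/
def mat (g : P.G) : Matrix (Fin P.n) (Fin P.n) P.R := (P.gl g).1

/-- The vector `e` over the adeles. -/
noncomputable def ev (i : Fin P.n) : P.R := P.inc (P.e i)

/-- Base change `GL_n(E) → GL_n(E ⊗ 𝔸)`. -/
noncomputable def bc : GL (Fin P.n) P.E →* GL (Fin P.n) P.R := Matrix.GeneralLinearGroup.map P.inc

theorem map_mem (γ : P.Γ) : P.bc (P.glF γ) ∈ P.Va := (jV P.c P.A γ).2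

/-- The image in `G(V)(𝔸)` of an element of `G(V)(F)`. -/
noncomputable def jfun (γ : P.Γ) : P.G := (⟨P.bc (P.glF γ), P.map_mem γ⟩ : P.Va)

theorem jfun_one : P.jfun 1 = 1 := map_one (jV P.c P.A)

theorem jfun_mul (a b : P.Γ) : P.jfun (a * b) = P.jfun a * P.jfun b := map_mul (jV P.c P.A) a b

/-- The inclusion of `G(V)(F)` in `G(V)(𝔸)`. -/
noncomputable def j : P.Γ →* P.G where
  toFun := P.jfun
  map_one' := P.jfun_one
  map_mul' := P.jfun_mul

theorem Δ_mul {a b : P.Γ} (ha : P.matF a *ᵥ P.e = P.e) (hb : P.matF b *ᵥ P.e = P.e) :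
    P.matF (a * b) *ᵥ P.e = P.e := (GW P.c P.A P.e).mul_mem (x := a) (y := b) ha hb

theorem Δ_one : P.matF 1 *ᵥ P.e = P.e := (GW P.c P.A P.e).one_mem

theorem Δ_inv {a : P.Γ} (ha : P.matF a *ᵥ P.e = P.e) : P.matF a⁻¹ *ᵥ P.e = P.e :=
  (GW P.c P.A P.e).inv_mem (x := a) ha

/-- `G(W)(F)`: the stabiliser of `e`. -/
def Δ : Subgroup P.Γ where
  carrier := {γ | P.matF γ *ᵥ P.e = P.e}
  mul_mem' := P.Δ_mul
  one_mem' := P.Δ_one
  inv_mem' := P.Δ_inv

theorem H_mul {a b : P.G} (ha : P.mat a *ᵥ P.ev = P.ev) (hb : P.mat b *ᵥ P.ev = P.ev) :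
    P.mat (a * b) *ᵥ P.ev = P.ev := (GWA P.c P.A P.e).mul_mem (x := a) (y := b) ha hb

theorem H_one : P.mat 1 *ᵥ P.ev = P.ev := (GWA P.c P.A P.e).one_mem

theorem H_inv {a : P.G} (ha : P.mat a *ᵥ P.ev = P.ev) : P.mat a⁻¹ *ᵥ P.ev = P.ev :=
  (GWA P.c P.A P.e).inv_mem (x := a) ha

/-- `G(W)(𝔸)`: the stabiliser of `e`. -/
noncomputable def H : Subgroup P.G where
  carrier := {g | P.mat g *ᵥ P.ev = P.ev}
  mul_mem' := P.H_mul
  one_mem' := P.H_one
  inv_mem' := P.H_inv

theorem j_mem (δ : P.Γ) (hδ : δ ∈ P.Δ) : P.j δ ∈ P.H := jV_mem P.c P.A P.e δ hδ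

/-- The inclusion of `G(W)(F)` in `G(W)(𝔸)`. -/
noncomputable def jH : P.Δ →* P.H := resHom P.j P.Δ P.H P.j_mem

/-- `⟨x, y⟩` over the adeles. -/
noncomputable def formA (x y : Fin P.n → P.R) : P.R := form P.s (P.A.map P.inc) x y

/-- The entries of the elements of `K` have bounded denominators (true for compact `K`). -/
def Bounded (K : Subgroup P.G) : Prop := ∃ m : ℕ, 0 < m ∧ ∀ k ∈ K, ∀ i l, (m : P.R) * P.mat k i l ∈ P.O

/-- `4 D |⟨e, e⟩| < M` at all infinite places. -/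
def Small (D M : ℕ) : Prop := ∀ τ : P.E →+* ℂ, 4 * D * ‖τ (form (P.c : P.E →+* P.E) P.A P.e P.e)‖ < M

/-- The stable range: `D ⟨g e - e, g e - e⟩` is in `M` times the integral adeles for all `g` with `κ g ≠ 0`, and
`4 D |⟨e, e⟩| < M` at all infinite places. -/
def Range (D M : ℕ) (κ : P.G → ℂ) : Prop :=
  0 < D ∧ P.Small D M ∧ ∀ g : P.G, κ g ≠ 0 → ∃ z ∈ P.O,
    (D : P.R) * P.formA (P.mat g *ᵥ P.ev - P.ev) (P.mat g *ᵥ P.ev - P.ev) = (M : P.R) * z

/-- `A` and `e` are integral. -/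
def Integral : Prop := (∀ i l, IsIntegral ℤ (P.A i l)) ∧ ∀ i, IsIntegral ℤ (P.e i)

/-- `D (g - 1)` is in `N` times the integral matrices for all `g` with `κ g ≠ 0`. -/
def Level (D N : ℕ) (κ : P.G → ℂ) : Prop :=
  ∀ g : P.G, κ g ≠ 0 → ∀ i l, ∃ z ∈ P.O,
    (D : P.R) * (P.mat g i l - (1 : Matrix (Fin P.n) (Fin P.n) P.R) i l) = (N : P.R) * z

/-- The level on `G(W)`. -/
noncomputable def KW (K : Subgroup P.G) : Subgroup P.H := K.subgroupOf P.H

section

variable {U : Type} [NormedAddCommGroup U] [InnerProductSpace ℂ U]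

/-- The Hecke operator on `G(W)` of the restriction of `κ`. -/
noncomputable def heckeW (K : Subgroup P.G) (κ : P.G → ℂ) (φ' : P.H → U) : P.H → U :=
  hecke (P.KW K) (fun x => κ x) φ'

/-- The inner product of forms on `G(W)`. -/
noncomputable def ipW (K : Subgroup P.G) (S' : Set P.H) (φ' ψ' : P.H → U) : ℂ := ip P.jH (P.KW K) S' φ' ψ'

/-- The period of `φ` against the form `φ'` on `G(W)`: sum over `G(W)(F) \ G(W)(𝔸) / K_W`. -/
noncomputable def per (K : Subgroup P.G) (S' : Set P.H) (φ' : P.H → U) (φ : P.G → U) : ℂ :=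
  P.ipW K S' φ' (fun x => φ x)

end

end DefPair

end Pool.Agent.H497.GP
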