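import Pool.Agent.H497.GP.Unfold
import Pool.Agent.H497.GP.Hecke

set_option autoImplicit false

open scoped TensorProduct Matrix ComplexConjugate
open IsDedekindDomain NumberField

namespace Pool.Agent.H497.GP

variable {Γ G U ι : Type*} [Group Γ] [Group G] [NormedAddCommGroup U] [InnerProductSpace ℂ U]

/-- `ip` as a sum over a finite set which contains the support of one of the functions in `S` -/
theorem ip_eq_sum (j : Γ →* G) (K : Subgroup G) (S : Set G) (φ ψ : G → U) (T : Finset G) (hT : ∀ s ∈ T, s ∈ S)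
    (h : ∀ s ∈ S, φ s ≠ 0 → ψ s ≠ 0 → s ∈ T) :
    ip j K S φ ψ = ∑ s ∈ T, inner ℂ (φ s) (ψ s) / (st j K s : ℂ) := by
  classical
  unfold ip
  refine finsum_mem_eq_sum_of_subset _ ?_ (fun s hs => hT s hs)
  rintro s ⟨hs, hs'⟩
  rw [Function.mem_support] at hs'
  refine h s hs (fun h0 => hs' ?_) (fun h0 => hs' ?_)
  · rw [h0, inner_zero_left, zero_div]
  · rw [h0, inner_zero_right, zero_div]

theorem ip_conj {j : Γ →* G} {K : Subgroup G} {S : Set G} {φ ψ : G → U} (h : {s | s ∈ S ∧ φ s ≠ 0}.Finite) :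
    starRingEnd ℂ (ip j K S φ ψ) = ip j K S ψ φ := by
  rw [ip_eq_sum j K S φ ψ h.toFinset (fun s hs => (h.mem_toFinset.1 hs).1)
      (fun s hs h1 _ => h.mem_toFinset.2 ⟨hs, h1⟩),
    ip_eq_sum j K S ψ φ h.toFinset (fun s hs => (h.mem_toFinset.1 hs).1)
      (fun s hs _ h1 => h.mem_toFinset.2 ⟨hs, h1⟩), map_sum]
  refine Finset.sum_congr rfl fun s _ => ?_
  rw [map_div₀, inner_conj_symm, Complex.conj_natCast]

theorem ip_sum_left {α : Type*} (j : Γ →* G) (K : Subgroup G) (S : Set G) (A : Finset α) (f : α → G → U) (ψ : G → U)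
    (h : ∀ a ∈ A, {s | s ∈ S ∧ f a s ≠ 0}.Finite) :
    ip j K S (fun g => ∑ a ∈ A, f a g) ψ = ∑ a ∈ A, ip j K S (f a) ψ := by
  classical
  have hfin : (⋃ a ∈ A, {s | s ∈ S ∧ f a s ≠ 0}).Finite := Set.Finite.biUnion A.finite_toSet h
  have hT : ∀ s ∈ hfin.toFinset, s ∈ S := by
    intro s hs
    rw [hfin.mem_toFinset, Set.mem_iUnion₂] at hs
    obtain ⟨a, _, ha⟩ := hs
    exact ha.1
  rw [ip_eq_sum j K S _ ψ hfin.toFinset hT]
  · simp_rw [sum_inner, Finset.sum_div]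
    rw [Finset.sum_comm]
    refine Finset.sum_congr rfl fun a ha => ?_
    rw [ip_eq_sum j K S (f a) ψ hfin.toFinset hT]
    intro s hs h1 _
    rw [hfin.mem_toFinset, Set.mem_iUnion₂]
    exact ⟨a, ha, hs, h1⟩
  · intro s hs h1 _
    obtain ⟨a, ha, h2⟩ := Finset.exists_ne_zero_of_sum_ne_zero h1
    rw [hfin.mem_toFinset, Set.mem_iUnion₂]
    exact ⟨a, ha, hs, h2⟩

theorem form_sum {α : Type*} {j : Γ →* G} {K : Subgroup G} {S : Set G} {ρ : Γ →* (U ≃ₗᵢ[ℂ] U)} (A : Finset α)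
    (f : α → G → U) (h : ∀ a ∈ A, IsForm j K S ρ (f a)) : IsForm j K S ρ (fun g => ∑ a ∈ A, f a g) := by
  classical
  refine ⟨fun γ g k hk => ?_, ?_⟩
  · rw [map_sum]
    exact Finset.sum_congr rfl fun a ha => (h a ha).eq γ g k hk
  · refine (Set.Finite.biUnion A.finite_toSet (fun a ha => (h a ha).fin)).subset ?_
    rintro s ⟨hs, hs'⟩
    obtain ⟨a, ha, h2⟩ := Finset.exists_ne_zero_of_sum_ne_zero hs'
    exact Set.mem_iUnion₂.2 ⟨a, ha, hs, h2⟩

theorem hecke_eq_sum {K : Subgroup G} {κ : G → ℂ} (hκ : IsHecke K κ) (φ : G → U) (g : G) :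
    hecke K κ φ g = ∑ x ∈ hκ.fin.toFinset, κ x.out • φ (g * x.out) := by
  unfold hecke
  refine finsum_eq_sum_of_support_subset _ ?_
  intro x hx
  rw [Function.mem_support] at hx
  rw [Finset.mem_coe, hκ.fin.mem_toFinset]
  exact fun h => hx (by rw [h, zero_smul])

/-- restriction of a Hecke function to a subgroup -/
theorem hecke_res {K : Subgroup G} {κ : G → ℂ} (hκ : IsHecke K κ) (H : Subgroup G) :
    IsHecke (K.subgroupOf H) (fun x : H => κ x) := by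
  have hout : ∀ x : G, κ ((QuotientGroup.mk x : G ⧸ K)).out = κ x := by
    intro x
    obtain ⟨k, hk⟩ := QuotientGroup.mk_out_eq_mul K x
    rw [hk]
    have := hκ.inv x 1 K.one_mem k.1 k.2
    rwa [one_mul] at this
  refine ⟨fun g k hk k' hk' => ?_, ?_⟩
  · rw [Subgroup.mem_subgroupOf] at hk hk'
    simpa using hκ.inv g k hk k' hk'
  · have hinj : Function.Injective (fun y : H ⧸ K.subgroupOf H => (QuotientGroup.mk (y.out : G) : G ⧸ K)) := by
      intro y y' hyy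
      have h1 : ((y.out : G))⁻¹ * (y'.out : G) ∈ K := QuotientGroup.eq.1 hyy
      have h2 : (y.out)⁻¹ * y'.out ∈ K.subgroupOf H := by
        rw [Subgroup.mem_subgroupOf]; simpa using h1
      have h3 := QuotientGroup.eq.2 h2
      simpa using h3
    refine Set.Finite.of_finite_image (f := fun y : H ⧸ K.subgroupOf H => (QuotientGroup.mk (y.out : G) : G ⧸ K))
      (hκ.fin.subset ?_) hinj.injOn
    rintro _ ⟨y, hy, rfl⟩
    simp only [Set.mem_ofPred_eq] at hy ⊢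
    rw [hout]
    exact hy

theorem res_fin {j : Γ →* G} {K : Subgroup G} {Δ : Subgroup Γ} {H : Subgroup G} (h : ∀ δ ∈ Δ, j δ ∈ H)
    (hst : ∀ g : G, {γ : Γ | g⁻¹ * j γ * g ∈ K}.Finite) (g : H) :
    {δ : Δ | g⁻¹ * resHom j Δ H h δ * g ∈ K.subgroupOf H}.Finite := by
  refine Set.Finite.of_finite_image (f := fun δ : Δ => (δ : Γ)) ((hst (g : G)).subset ?_)
    Subtype.val_injective.injOn
  rintro _ ⟨δ, hδ, rfl⟩
  simp only [Set.mem_ofPred_eq, Subgroup.mem_subgroupOf] at hδ ⊢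
  simpa [resHom] using hδ

/-- the coefficients of the lift of `φ'` -/
noncomputable def uu (j : Γ →* G) (K : Subgroup G) (φ : G → U) (s : G) : U := ((st j K s : ℂ)⁻¹) • φ s

/-- periods as a finite sum -/
theorem ip_uu (j : Γ →* G) (K : Subgroup G) (S : Set G) (φ ψ : G → U) (h : {s | s ∈ S ∧ φ s ≠ 0}.Finite) :
    ip j K S φ ψ = ∑ s ∈ h.toFinset, inner ℂ (uu j K φ s) (ψ s) := by
  rw [ip_eq_sum j K S φ ψ h.toFinset (fun s hs => (h.mem_toFinset.1 hs).1)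
      (fun s hs h1 _ => h.mem_toFinset.2 ⟨hs, h1⟩)]
  refine Finset.sum_congr rfl fun s _ => ?_
  rw [uu, inner_smul_left, map_inv₀, Complex.conj_natCast, div_eq_inv_mul]

/-- the key identity: on `H` the Hecke operator of `G` on the lift of `φ'` is the restricted Hecke operator -/
theorem hecke_key (j : Γ →* G) (K : Subgroup G) (Δ : Subgroup Γ) (H : Subgroup G) (h : ∀ δ ∈ Δ, j δ ∈ H)
    (hst : ∀ g : G, {γ : Γ | g⁻¹ * j γ * g ∈ K}.Finite)
    (S' : Set H) (hS' : Reps (resHom j Δ H h) (K.subgroupOf H) S')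
    (ρ : Γ →* (U ≃ₗᵢ[ℂ] U)) (κ : G → ℂ) (hκ : IsHecke K κ)
    (hgeo : ∀ (x y : H) (γ : Γ), κ ((x : G)⁻¹ * j γ * y) ≠ 0 → γ ∈ Δ)
    (φ' : H → U) (hφ' : IsForm (resHom j Δ H h) (K.subgroupOf H) S' (ρ.comp Δ.subtype) φ') (g : H) :
    hecke K κ (fun x => ∑ s ∈ hφ'.fin.toFinset,
      lift j K ρ (s : G) (uu (resHom j Δ H h) (K.subgroupOf H) φ' s) x) g =
      hecke (K.subgroupOf H) (fun x => κ x) φ' g := by
  classical
  have hκ' := hecke_res hκ H
  have hright : ∀ x : H, ∀ k ∈ K.subgroupOf H, φ' (x * k) = φ' x := by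
    intro x k hk
    have := hφ'.eq 1 x k hk
    simpa using this
  obtain ⟨e1, e2⟩ := hecke_shift (K.subgroupOf H) (fun x : H => κ x) hκ' φ' hright g
  rw [e1, unfold (resHom j Δ H h) (K.subgroupOf H) S' hS' (res_fin h hst)
    (fun y : H => κ ((g⁻¹ * y : H) : G) • φ' y)]
  · -- left side
    rw [hecke_eq_sum hκ]
    simp_rw [Finset.smul_sum]
    rw [Finset.sum_comm]
    have e3 : ∀ s : H, ∑ x ∈ hκ.fin.toFinset, κ x.out • lift j K ρ (s : G)
        (uu (resHom j Δ H h) (K.subgroupOf H) φ' s) ((g : G) * x.out) =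
        ∑ᶠ γ : Γ, κ ((g : G)⁻¹ * j γ * s) • ρ γ (uu (resHom j Δ H h) (K.subgroupOf H) φ' s) := by
      intro s
      rw [← hecke_lift j K hst ρ κ hκ, hecke_eq_sum hκ]
    simp_rw [e3]
    have e4 : ∀ s : H, (∑ᶠ γ : Γ, κ ((g : G)⁻¹ * j γ * s) •
        ρ γ (uu (resHom j Δ H h) (K.subgroupOf H) φ' s)) =
        ((st (resHom j Δ H h) (K.subgroupOf H) s : ℂ)⁻¹) • ∑ᶠ δ : Δ,
          κ ((g⁻¹ * (resHom j Δ H h δ * s) : H) : G) • φ' (resHom j Δ H h δ * s) := by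
      intro s
      have hfinΓ : {γ : Γ | κ ((g : G)⁻¹ * j γ * s) ≠ 0}.Finite := hecke_fin j K hst κ hκ s g
      have f1 : (∑ᶠ γ : Γ, κ ((g : G)⁻¹ * j γ * s) • ρ γ (uu (resHom j Δ H h) (K.subgroupOf H) φ' s)) =
          ∑ᶠ (γ : Γ) (_ : γ ∈ Δ), κ ((g : G)⁻¹ * j γ * s) • ρ γ (uu (resHom j Δ H h) (K.subgroupOf H) φ' s) := by
        refine finsum_congr fun γ => ?_
        by_cases hγ : γ ∈ Δ
        · rw [finsum_eq_if, if_pos hγ]
        · have : κ ((g : G)⁻¹ * j γ * s) = 0 := by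
            by_contra hne; exact hγ (hgeo g s γ hne)
          rw [finsum_eq_if, if_neg hγ, this, zero_smul]
      have f2 : (∑ᶠ (γ : Γ) (_ : γ ∈ Δ), κ ((g : G)⁻¹ * j γ * s) •
            ρ γ (uu (resHom j Δ H h) (K.subgroupOf H) φ' s)) =
          ∑ᶠ δ : Δ, κ ((g : G)⁻¹ * j δ * s) • ρ δ (uu (resHom j Δ H h) (K.subgroupOf H) φ' s) :=
        (finsum_subtype_eq_finsum_cond (f := fun γ : Γ => κ ((g : G)⁻¹ * j γ * s) •
            ρ γ (uu (resHom j Δ H h) (K.subgroupOf H) φ' s)) (fun γ => γ ∈ Δ)).symm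
      rw [f1, f2, smul_finsum]
      refine finsum_congr fun δ => ?_
      have f3 : φ' (resHom j Δ H h δ * s) = ρ δ (φ' s) := by
        have := hφ'.eq δ s 1 (one_mem _)
        simpa using this
      rw [f3, uu, map_smul, smul_smul, smul_smul, mul_comm]
      congr 2
      simp [resHom, mul_assoc]
    simp_rw [e4]
    rw [← finsum_mem_eq_sum_of_subset (s := S') (f := fun s : H =>
        ((st (resHom j Δ H h) (K.subgroupOf H) s : ℂ)⁻¹) • ∑ᶠ δ : Δ,
          κ ((g⁻¹ * (resHom j Δ H h δ * s) : H) : G) • φ' (resHom j Δ H h δ * s))]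
    · rintro s ⟨hs, hs'⟩
      rw [Function.mem_support] at hs'
      rw [Finset.mem_coe, Set.Finite.mem_toFinset]
      refine ⟨hs, fun h0 => hs' ?_⟩
      have f3 : ∀ δ : Δ, φ' (resHom j Δ H h δ * s) = 0 := by
        intro δ
        have := hφ'.eq δ s 1 (one_mem _)
        rw [mul_one] at this
        rw [this, h0, map_zero]
      simp [f3]
    · intro s hs
      exact ((Set.Finite.mem_toFinset _).1 hs).1
  · intro y k hk
    have f1 := hκ.inv ((g⁻¹ * y : H) : G) 1 K.one_mem (k : G) (Subgroup.mem_subgroupOf.1 hk)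
    rw [one_mul] at f1
    have f2 : (((g⁻¹ * (y * k) : H)) : G) = ((g⁻¹ * y : H) : G) * k := by
      simp [mul_assoc]
    rw [hright y k hk, f2, f1]
  · refine e2.subset fun y hy => ?_
    simp only [Set.mem_ofPred_eq] at hy ⊢
    exact fun h0 => hy (by rw [h0, zero_smul])

/-- The abstract exact formula. -/
theorem rtf (j : Γ →* G) (K : Subgroup G) (Δ : Subgroup Γ) (H : Subgroup G) (h : ∀ δ ∈ Δ, j δ ∈ H)
    (hst : ∀ g : G, {γ : Γ | g⁻¹ * j γ * g ∈ K}.Finite)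
    (S : Set G) (hS : Reps j K S) (S' : Set H) (hS' : Reps (resHom j Δ H h) (K.subgroupOf H) S')
    (ρ : Γ →* (U ≃ₗᵢ[ℂ] U)) (κ : G → ℂ) (hκ : IsHecke K κ)
    (hgeo : ∀ (x y : H) (γ : Γ), κ ((x : G)⁻¹ * j γ * y) ≠ 0 → γ ∈ Δ)
    (φ : ι → G → U) (hφ : IsBasis j K S ρ φ)
    (φ' : H → U) (hφ' : IsForm (resHom j Δ H h) (K.subgroupOf H) S' (ρ.comp Δ.subtype) φ') :
    HasSum (fun i => ip (resHom j Δ H h) (K.subgroupOf H) S' φ' (fun x => hecke K κ (φ i) x) *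
        starRingEnd ℂ (ip (resHom j Δ H h) (K.subgroupOf H) S' φ' (fun x => φ i x)))
      (ip (resHom j Δ H h) (K.subgroupOf H) S' φ'
        (hecke (K.subgroupOf H) (fun x => κ x) φ')) := by
  classical
  obtain ⟨T, hT⟩ : ∃ T, T = hφ'.fin.toFinset := ⟨_, rfl⟩
  obtain ⟨u, hu⟩ : ∃ u : H → U, u = uu (resHom j Δ H h) (K.subgroupOf H) φ' := ⟨_, rfl⟩
  obtain ⟨v, hv⟩ : ∃ v : G → U, v = fun x => ∑ s ∈ T, lift j K ρ (s : G) (u s) x := ⟨_, rfl⟩
  obtain ⟨w, hw⟩ : ∃ w : G → U, w = fun y => ∑ a ∈ T ×ˢ hκ.fin.toFinset,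
      lift j K ρ ((a.1 : G) * a.2.out) ((starRingEnd ℂ (κ a.2.out)) • u a.1) y := ⟨_, rfl⟩
  have hvf : IsForm j K S ρ v := by
    rw [hv]; exact form_sum T _ fun s _ => lift_form j K S hS hst ρ _ _
  have hwf : IsForm j K S ρ w := by
    rw [hw]; exact form_sum _ _ fun s _ => lift_form j K S hS hst ρ _ _
  have hP : ∀ ψ : G → U, ip (resHom j Δ H h) (K.subgroupOf H) S' φ' (fun x : H => ψ x) =
      ∑ s ∈ T, inner ℂ (u s) (ψ s) := by
    intro ψ
    rw [hT, hu]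
    exact ip_uu _ _ S' φ' _ hφ'.fin
  have hvip : ∀ ψ : G → U, IsForm j K S ρ ψ → ip j K S v ψ = ∑ s ∈ T, inner ℂ (u s) (ψ s) := by
    intro ψ hψ
    rw [hv, ip_sum_left j K S T _ ψ fun s _ => (lift_form j K S hS hst ρ _ _).fin]
    exact Finset.sum_congr rfl fun s _ => ip_lift j K S hS hst ρ _ _ ψ hψ.eq
  have hwip : ∀ ψ : G → U, IsForm j K S ρ ψ → ip j K S w ψ = ∑ s ∈ T, inner ℂ (u s) (hecke K κ ψ s) := by
    intro ψ hψ
    rw [hw, ip_sum_left j K S _ _ ψ fun s _ => (lift_form j K S hS hst ρ _ _).fin, Finset.sum_product]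
    refine Finset.sum_congr rfl fun s _ => ?_
    rw [hecke_eq_sum hκ, inner_sum]
    refine Finset.sum_congr rfl fun x _ => ?_
    rw [ip_lift j K S hS hst ρ _ _ ψ hψ.eq, inner_smul_left, inner_smul_right, Complex.conj_conj]
  have h1 := hφ.parseval w v hwf hvf
  have h2 : ip j K S w v = ip (resHom j Δ H h) (K.subgroupOf H) S' φ'
        (hecke (K.subgroupOf H) (fun x => κ x) φ') := by
    rw [hwip v hvf, ip_uu _ _ S' φ' _ hφ'.fin, ← hT, ← hu]
    refine Finset.sum_congr rfl fun s _ => ?_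
    rw [hv, hT, hu, hecke_key j K Δ H h hst S' hS' ρ κ hκ hgeo φ' hφ' s]
  rw [h2] at h1
  have h3 : (fun i => ip (resHom j Δ H h) (K.subgroupOf H) S' φ' (fun x => hecke K κ (φ i) x) *
        starRingEnd ℂ (ip (resHom j Δ H h) (K.subgroupOf H) S' φ' (fun x => φ i x))) =
      fun i => ip j K S w (φ i) * ip j K S (φ i) v := by
    funext i
    rw [hwip _ (hφ.form i), hP, hP, ← hvip _ (hφ.form i), ip_conj hvf.fin]
  rw [h3]
  exact h1

end Pool.Agent.H497.GP
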