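import Pool.Agent.H497.GP.Pair
import Pool.Agent.H497.GP.Rtf
import Pool.Agent.H497.GP.FinSt
import Pool.Agent.H497.GP.Level

set_option autoImplicit false

open scoped TensorProduct Matrix ComplexConjugate
open IsDedekindDomain NumberField

namespace Pool.Agent.H497.GP

section

variable {F E : Type} [Field F] [NumberField F] [Field E] [NumberField E] [Algebra F E] {n : ℕ}

omit [NumberField F] in
theorem form_ne (c : E →ₐ[F] E) (A : Matrix (Fin n) (Fin n) E) (hc : ∀ (τ : E →+* ℂ) x, τ (c x) = starRingEnd ℂ (τ x))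
    (hA : ∀ τ : E →+* ℂ, Definite (A.map τ)) (e : Fin n → E) (he : e ≠ 0) : form (c : E →+* E) A e e ≠ 0 := by
  classical
  obtain ⟨τ⟩ : Nonempty (E →+* ℂ) := inferInstance
  intro h0
  have h1 : form (starRingEnd ℂ) (A.map τ) (fun i => τ (e i)) (fun i => τ (e i)) = 0 := by
    rw [← map_zero τ, ← h0]
    simp only [form, dotProduct, Matrix.mulVec, map_sum, map_mul, Matrix.map_apply]
    refine Finset.sum_congr rfl fun i _ => ?_
    rw [← hc τ (e i)]
    rfl
  have h2 : (fun i => τ (e i)) ≠ 0 := by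
    intro h3
    exact he (funext fun i => τ.injective ((congrFun h3 i).trans (map_zero τ).symm))
  rcases (hA τ).2 with h | h
  · have := h _ h2; rw [h1] at this; simp at this
  · have := h _ h2; rw [h1] at this; simp at this

/-- the indicator function of `K` -/
theorem hecke_one {G U : Type*} [Group G] [NormedAddCommGroup U] [InnerProductSpace ℂ U] (K : Subgroup G)
    (κ : G → ℂ) (h1 : ∀ g ∈ K, κ g = 1) (h0 : ∀ g, g ∉ K → κ g = 0) :
    IsHecke K κ ∧ ∀ φ : G → U, (∀ g, ∀ k ∈ K, φ (g * k) = φ g) → hecke K κ φ = φ := by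
  classical
  have hsub : {x : G ⧸ K | κ x.out ≠ 0} ⊆ {((1 : G) : G ⧸ K)} := by
    intro x hx
    simp only [Set.mem_ofPred_eq] at hx
    have h2 : x.out ∈ K := by
      by_contra h; exact hx (h0 _ h)
    rw [Set.mem_singleton_iff, ← QuotientGroup.out_eq' x]
    exact (QuotientGroup.eq.2 (by rw [inv_one, one_mul]; exact h2)).symm
  refine ⟨⟨fun g k hk k' hk' => ?_, (Set.finite_singleton _).subset hsub⟩, fun φ hφ => ?_⟩
  · by_cases hg : g ∈ K
    · rw [h1 _ hg, h1 _ (K.mul_mem (K.mul_mem hk hg) hk')]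
    · rw [h0 _ hg, h0]
      intro h2
      exact hg ((K.mul_mem_cancel_left hk).1 ((K.mul_mem_cancel_right hk').1 h2))
  · funext g
    unfold hecke
    rw [finsum_eq_single _ ((1 : G) : G ⧸ K)]
    · have h2 : ((1 : G) : G ⧸ K).out ∈ K := by
        obtain ⟨k, hk⟩ := QuotientGroup.mk_out_eq_mul K (1 : G)
        rw [hk, one_mul]; exact k.2
      rw [h1 _ h2, one_smul, hφ _ _ h2]
    · intro x hx
      have : κ x.out = 0 := by
        by_contra h
        exact hx (hsub h)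
      rw [this, zero_smul]

end

theorem O_le (P : DefPair) : OE P.F P.E = P.O := by
  unfold OE DefPair.O
  congr 1
  congr 1
  ext z
  constructor
  · rintro ⟨x, rfl⟩
    exact ⟨x, x.2, rfl⟩
  · rintro ⟨x, hx, rfl⟩
    exact ⟨⟨x, hx⟩, rfl⟩

theorem int_P (P : DefPair) (x : P.E) (h : P.inc x ∈ P.O) : IsIntegral ℤ x := by
  rw [← O_le P] at h
  exact int_of_mem_OE (F := P.F) x h

theorem den_P (P : DefPair) (z : P.R) : ∃ m : ℕ, 0 < m ∧ (m : P.R) * z ∈ P.O := by
  rw [← O_le P]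
  exact den_OE (F := P.F) (E := P.E) z

theorem s_inc (P : DefPair) (x : P.E) : P.s (P.inc x) = P.inc (P.c x) := cA_inc P.c x

theorem inc_P (P : DefPair) (x : P.E) (h : IsIntegral ℤ x) : P.inc x ∈ P.O := by
  rw [← O_le P]
  exact inc_mem (F := P.F) x h

theorem s_P (P : DefPair) (z : P.R) (h : z ∈ P.O) : P.s z ∈ P.O := by
  rw [← O_le P] at h ⊢
  exact cA_mem (F := P.F) P.c z h

theorem fin_st' (P : DefPair) (K : Subgroup P.G) (hK : P.Bounded K) (g : P.G) :
    {γ : P.Γ | g⁻¹ * P.j γ * g ∈ K}.Finite :=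
  fin_st P.s P.inc P.O (int_P P) (den_P P) P.c (s_inc P) P.cc P.A P.definite _ K hK g

theorem stable' (P : DefPair) (D M : ℕ) (κ : P.G → ℂ) (h : P.Range D M κ) (x y : P.H) (γ : P.Γ)
    (hne : κ ((x : P.G)⁻¹ * P.j γ * y) ≠ 0) : γ ∈ P.Δ :=
  stable P.s P.inc P.O (int_P P) P.c (s_inc P) P.cc P.A P.definite _ P.e
    (form_ne P.c P.A P.cc P.definite P.e P.ne) D M h.1 h.2.1 x.1 y.1 x.2 y.2 γ (h.2.2 _ hne)

theorem level' (P : DefPair) (D N : ℕ) (hD : 0 < D) (hN : 0 < N) (hDN : D.Coprime N) (hI : P.Integral)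
    (hS : P.Small D (N ^ 2)) (κ : P.G → ℂ) (hκ : P.Level D N κ) : P.Range D (N ^ 2) κ :=
  ⟨hD, hS, fun g hg => level_range P.s P.inc P.O (inc_P P) (s_P P) P.A _ P.e hI.1 hI.2 D N hN hDN g
    (fun i l => hκ g hg i l)⟩

theorem show_main (P : DefPair) (K : Subgroup P.G) (hK : P.Bounded K) :
    (∀ D N : ℕ, 0 < D → 0 < N → D.Coprime N → P.Integral → P.Small D (N ^ 2) →
      ∀ κ : P.G → ℂ, P.Level D N κ → P.Range D (N ^ 2) κ) ∧
    (∀ g : P.G, {γ : P.Γ | g⁻¹ * P.j γ * g ∈ K}.Finite) ∧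
    ∀ (S : Set P.G) (S' : Set P.H), Reps P.j K S → Reps P.jH (P.KW K) S' →
    ∀ (U : Type) [NormedAddCommGroup U] [InnerProductSpace ℂ U] (ρ : P.Γ →* (U ≃ₗᵢ[ℂ] U))
      (ι : Type) (φ : ι → P.G → U), IsBasis P.j K S ρ φ →
    ∀ φ' : P.H → U, IsForm P.jH (P.KW K) S' (ρ.comp P.Δ.subtype) φ' →
    (∀ κ : P.G → ℂ, IsHecke K κ → ∀ D M : ℕ, P.Range D M κ →
      HasSum (fun i => P.per K S' φ' (hecke K κ (φ i)) * starRingEnd ℂ (P.per K S' φ' (φ i)))
        (P.ipW K S' φ' (P.heckeW K κ φ')) ∧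
      ∀ l : ι → ℂ, (∀ i, hecke K κ (φ i) = l i • φ i) →
        HasSum (fun i => l i * ((‖P.per K S' φ' (φ i)‖ ^ 2 : ℝ) : ℂ)) (P.ipW K S' φ' (P.heckeW K κ φ'))) ∧
    (∀ D M : ℕ, P.Range D M (fun g => Set.indicator (K : Set P.G) 1 g) →
      HasSum (fun i => ((‖P.per K S' φ' (φ i)‖ ^ 2 : ℝ) : ℂ)) (P.ipW K S' φ' φ') ∧
      (φ' ≠ 0 → ∃ i, P.per K S' φ' (φ i) ≠ 0)) := by
  classical
  have hst := fin_st' P K hK
  refine ⟨fun D N hD hN hDN hI hS κ hκ => level' P D N hD hN hDN hI hS κ hκ, hst, ?_⟩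
  intro S S' hS hS' U _ _ ρ ι φ hφ φ' hφ'
  have key : ∀ (κ : P.G → ℂ), IsHecke K κ → ∀ D M : ℕ, P.Range D M κ →
      HasSum (fun i => P.per K S' φ' (hecke K κ (φ i)) * starRingEnd ℂ (P.per K S' φ' (φ i)))
        (P.ipW K S' φ' (P.heckeW K κ φ')) := by
    intro κ hκ D M hR
    exact rtf P.j K P.Δ P.H P.j_mem hst S hS S' hS' ρ κ hκ (stable' P D M κ hR) φ hφ φ' hφ'
  refine ⟨fun κ hκ D M hR => ⟨key κ hκ D M hR, fun l hl => ?_⟩, fun D M hR => ?_⟩
  · have h1 := key κ hκ D M hR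
    convert h1 using 1
    funext i
    have e1 : P.per K S' φ' (hecke K κ (φ i)) = l i * P.per K S' φ' (φ i) := by
      rw [hl i]
      unfold DefPair.per DefPair.ipW
      rw [ip_eq_sum _ _ _ _ _ hφ'.fin.toFinset (fun s hs => (hφ'.fin.mem_toFinset.1 hs).1)
          (fun s hs h1 _ => hφ'.fin.mem_toFinset.2 ⟨hs, h1⟩),
        ip_eq_sum _ _ _ _ _ hφ'.fin.toFinset (fun s hs => (hφ'.fin.mem_toFinset.1 hs).1)
          (fun s hs h1 _ => hφ'.fin.mem_toFinset.2 ⟨hs, h1⟩), Finset.mul_sum]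
      refine Finset.sum_congr rfl fun s _ => ?_
      rw [Pi.smul_apply, inner_smul_right, mul_div_assoc]
    rw [e1, mul_assoc, Complex.mul_conj, Complex.normSq_eq_norm_sq]
  · have hone : ∀ (V : Type) [NormedAddCommGroup V] [InnerProductSpace ℂ V],
        IsHecke K (fun g => Set.indicator (K : Set (P.G)) 1 g : P.G → ℂ) ∧
        ∀ ψ : P.G → V, (∀ g, ∀ k ∈ K, ψ (g * k) = ψ g) →
          hecke K (fun g => Set.indicator (K : Set (P.G)) 1 g) ψ = ψ := fun V _ _ =>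
      hecke_one K _ (fun g hg => Set.indicator_of_mem hg _) (fun g hg => Set.indicator_of_notMem hg _)
    have hone' := hecke_one (U := U) (P.KW K)
      (fun x : P.H => Set.indicator (K : Set (P.G)) (1 : P.G → ℂ) x)
      (fun g hg => Set.indicator_of_mem (Subgroup.mem_subgroupOf.1 hg) _)
      (fun g hg => Set.indicator_of_notMem (fun h => hg (Subgroup.mem_subgroupOf.2 h)) _)
    have h1 := key _ (hone U).1 D M hR
    have hφ'r : ∀ x : P.H, ∀ k ∈ P.KW K, φ' (x * k) = φ' x := by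
      intro x k hk
      have := hφ'.eq 1 x k hk
      simpa using this
    have h3 : HasSum (fun i => ((‖P.per K S' φ' (φ i)‖ ^ 2 : ℝ) : ℂ))
        (P.ipW K S' φ' φ') := by
      have hone'' : P.heckeW K (fun g => Set.indicator (K : Set P.G) 1 g) φ' = φ' := hone'.2 φ' hφ'r
      rw [hone''] at h1
      convert h1 using 1
      funext i
      have hr : ∀ g, ∀ k ∈ K, φ i (g * k) = φ i g := by
        intro g k hk
        have := (hφ.form i).eq 1 g k hk
        simpa using this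
      rw [(hone U).2 (φ i) hr, Complex.mul_conj, Complex.normSq_eq_norm_sq]
    refine ⟨h3, fun hne => ?_⟩
    by_contra hcon
    push Not at hcon
    have h4 : P.ipW K S' φ' φ' = 0 := by
      refine h3.unique ?_
      simp only [hcon]
      simpa using hasSum_zero
    have hfin' := res_fin P.j_mem hst (K := K)
    unfold DefPair.ipW at h4
    rw [ip_eq_sum _ _ _ _ _ hφ'.fin.toFinset (fun s hs => (hφ'.fin.mem_toFinset.1 hs).1)
          (fun s hs h1 _ => hφ'.fin.mem_toFinset.2 ⟨hs, h1⟩)] at h4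
    have h5 : ∀ s ∈ hφ'.fin.toFinset, (0 : ℝ) <
        ‖φ' s‖ ^ 2 / (st (P.jH) (P.KW K) s : ℝ) := by
      intro s hs
      have h6 := (hφ'.fin.mem_toFinset.1 hs).2
      have h7 : 0 < st (P.jH) (P.KW K) s := by
        unfold st
        have : Finite {γ : P.Δ // s⁻¹ * P.jH γ * s ∈ P.KW K} := hfin' s
        have : Nonempty {γ : P.Δ // s⁻¹ * P.jH γ * s ∈ P.KW K} :=
          ⟨⟨1, by rw [map_one, mul_one, inv_mul_cancel]; exact one_mem _⟩⟩
        exact Nat.card_pos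
      have h8 : 0 < ‖φ' s‖ := norm_pos_iff.2 h6
      positivity
    have h9 : ∑ s ∈ hφ'.fin.toFinset, ‖φ' s‖ ^ 2 / (st (P.jH) (P.KW K) s : ℝ) = 0 := by
      have : ((∑ s ∈ hφ'.fin.toFinset, ‖φ' s‖ ^ 2 / (st (P.jH) (P.KW K) s : ℝ) : ℝ) : ℂ) = 0 := by
        rw [← h4]
        push_cast
        refine Finset.sum_congr rfl fun s _ => ?_
        rw [inner_self_eq_norm_sq_to_K]
        rfl
      exact_mod_cast this
    have h10 : hφ'.fin.toFinset = ∅ := by
      by_contra h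
      have := Finset.sum_pos h5 (Finset.nonempty_iff_ne_empty.2 h)
      linarith
    apply hne
    funext g
    obtain ⟨s, ⟨hs, γ, k, hk, hg⟩, _⟩ := hS' g
    have hs0 : φ' s = 0 := by
      by_contra h
      have : s ∈ hφ'.fin.toFinset := hφ'.fin.mem_toFinset.2 ⟨hs, h⟩
      rw [h10] at this
      simp at this
    rw [hg, hφ'.eq γ s k hk, hs0, map_zero]
    rfl

end Pool.Agent.H497.GP
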