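import Pool.Agent.H497.GP.IntOE
import Pool.Agent.H497.GP.Den
import Pool.Agent.H497.GP.Arch

set_option autoImplicit false

open scoped TensorProduct Matrix ComplexConjugate
open IsDedekindDomain NumberField

namespace Pool.Agent.H497.GP

section

variable {n : ℕ}

/-- The form of the images. -/
theorem form_map {S T : Type*} [CommRing S] [CommRing T] (s : S →+* S) (t : T →+* T) (f : S →+* T)
    (hf : ∀ x, t (f x) = f (s x)) (A : Matrix (Fin n) (Fin n) S) (a b : Fin n → S) :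
    form t (A.map f) (fun i => f (a i)) (fun i => f (b i)) = f (form s A a b) := by
  unfold form
  rw [RingHom.map_dotProduct]
  have h1 : (A.map f) *ᵥ (fun i => f (b i)) = f ∘ (A *ᵥ b) := by
    funext i
    rw [Function.comp_apply, RingHom.map_mulVec]
    rfl
  have h2 : (fun i => t (f (a i))) = f ∘ (fun i => s (a i)) := by
    funext i
    rw [Function.comp_apply, hf]
  rw [h1, h2]

/-- Isometries preserve the form. -/
theorem form_isom {S : Type*} [CommRing S] (s : S →+* S) (A : Matrix (Fin n) (Fin n) S) (sp : Prop)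
    (g : Isom s A sp) (a b : Fin n → S) :
    form s A (((g : GL (Fin n) S) : Matrix (Fin n) (Fin n) S) *ᵥ a)
      (((g : GL (Fin n) S) : Matrix (Fin n) (Fin n) S) *ᵥ b) = form s A a b := by
  obtain ⟨g, hg, hg'⟩ := g
  show form s A ((g : Matrix (Fin n) (Fin n) S) *ᵥ a) ((g : Matrix (Fin n) (Fin n) S) *ᵥ b) = _
  unfold form
  have h1 : (fun i => s (((g : Matrix (Fin n) (Fin n) S) *ᵥ a) i)) =
      ((g : Matrix (Fin n) (Fin n) S).map s) *ᵥ (fun i => s (a i)) := by
    funext i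
    rw [RingHom.map_mulVec]
    rfl
  rw [h1]
  conv_rhs => rw [← hg]
  rw [← Matrix.vecMul_transpose, ← Matrix.dotProduct_mulVec, Matrix.mulVec_mulVec,
    Matrix.mulVec_mulVec, Matrix.mul_assoc]

end

variable {F E : Type} [Field F] [NumberField F] [Field E] [NumberField E] [Algebra F E] {n : ℕ}
  {R : Type} [CommRing R] (s : R →+* R) (f : E →+* R) (O : Subring R)

/-- `⟨g e - e, g e - e⟩` for an adelic isometry `g` and a vector `e` of `V`. -/
def rg (A : Matrix (Fin n) (Fin n) E) (sp : Prop) (e : Fin n → E) (g : Isom s (A.map f) sp) : R :=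
  form s (A.map f)
    ((((g : GL (Fin n) R) : Matrix (Fin n) (Fin n) R) *ᵥ (fun i => f (e i))) - (fun i => f (e i)))
    ((((g : GL (Fin n) R) : Matrix (Fin n) (Fin n) R) *ᵥ (fun i => f (e i))) - (fun i => f (e i)))

/-- `γ e - e` and its image -/
theorem base_sub (c : E →ₐ[F] E) (hs : ∀ x, s (f x) = f (c x)) (A : Matrix (Fin n) (Fin n) E) (sp : Prop) (e : Fin n → E)
    (x y : Isom (s) (A.map (f)) sp)
    (hx : ((x : GL (Fin n) (R)) : Matrix (Fin n) (Fin n) (R)) *ᵥ (fun i => f (e i)) =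
      fun i => f (e i))
    (hy : ((y : GL (Fin n) (R)) : Matrix (Fin n) (Fin n) (R)) *ᵥ (fun i => f (e i)) =
      fun i => f (e i))
    (γ : Isom (c : E →+* E) A sp) :
    ((x : GL (Fin n) (R)) : Matrix (Fin n) (Fin n) (R)) *ᵥ
      (((((x⁻¹ * baseChange (c : E →+* E) (s) (f) hs A sp γ * y :
        Isom (s) (A.map (f)) sp) : GL (Fin n) (R)) : Matrix (Fin n) (Fin n) (R)) *ᵥ
          (fun i => f (e i))) - (fun i => f (e i))) =
      fun i => f (((((γ : GL (Fin n) E) : Matrix (Fin n) (Fin n) E) *ᵥ e) - e) i) := by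
  rw [Matrix.mulVec_sub, hx, Matrix.mulVec_mulVec, ← Matrix.GeneralLinearGroup.coe_mul, ← Subgroup.coe_mul]
  have h2 : x * (x⁻¹ * baseChange (c : E →+* E) (s) (f) hs A sp γ * y) =
      baseChange (c : E →+* E) (s) (f) hs A sp γ * y := by group
  rw [h2, Subgroup.coe_mul, Matrix.GeneralLinearGroup.coe_mul, ← Matrix.mulVec_mulVec, hy]
  have h3 : (((baseChange (c : E →+* E) (s) (f) hs A sp γ :
      Isom (s) (A.map (f)) sp) : GL (Fin n) (R)) : Matrix (Fin n) (Fin n) (R)) =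
      ((γ : GL (Fin n) E) : Matrix (Fin n) (Fin n) E).map (f) := rfl
  rw [h3]
  have h4 : ((γ : GL (Fin n) E) : Matrix (Fin n) (Fin n) E).map (f) *ᵥ (fun i => f (e i)) =
      fun i => f ((((γ : GL (Fin n) E) : Matrix (Fin n) (Fin n) E) *ᵥ e) i) := by
    funext i
    rw [RingHom.map_mulVec]
    rfl
  rw [h4]
  funext i
  simp only [Pi.sub_apply]
  rw [map_sub]

/-- stable range -/
theorem stable (hint : ∀ x : E, f x ∈ O → IsIntegral ℤ x) (c : E →ₐ[F] E) (hs : ∀ x, s (f x) = f (c x)) (hc : ∀ (τ : E →+* ℂ) x, τ (c x) = conj (τ x))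
    (A : Matrix (Fin n) (Fin n) E) (hA : ∀ τ : E →+* ℂ, Definite (A.map τ)) (sp : Prop)
    (e : Fin n → E) (he : form (c : E →+* E) A e e ≠ 0) (D M : ℕ) (hD : 0 < D)
    (hDM : ∀ τ : E →+* ℂ, 4 * D * ‖τ (form (c : E →+* E) A e e)‖ < M)
    (x y : Isom (s) (A.map (f)) sp)
    (hx : ((x : GL (Fin n) (R)) : Matrix (Fin n) (Fin n) (R)) *ᵥ (fun i => f (e i)) =
      fun i => f (e i))
    (hy : ((y : GL (Fin n) (R)) : Matrix (Fin n) (Fin n) (R)) *ᵥ (fun i => f (e i)) =
      fun i => f (e i))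
    (γ : Isom (c : E →+* E) A sp)
    (h : ∃ z ∈ O, (D : R) * rg s f A sp e
      (x⁻¹ * baseChange (c : E →+* E) (s) (f) hs A sp γ * y) = (M : R) * z) :
    ((γ : GL (Fin n) E) : Matrix (Fin n) (Fin n) E) *ᵥ e = e := by
  obtain ⟨z, hz, hzeq⟩ := h
  obtain ⟨u, hu⟩ : ∃ u : Fin n → E, u = (((γ : GL (Fin n) E) : Matrix (Fin n) (Fin n) E) *ᵥ e) - e := ⟨_, rfl⟩
  obtain ⟨f0, hf0⟩ : ∃ f0 : E, f0 = form (c : E →+* E) A e e := ⟨_, rfl⟩
  obtain ⟨r, hr⟩ : ∃ r : E, r = form (c : E →+* E) A u u := ⟨_, rfl⟩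
  have hcA : ∀ x : E, s (f x) = f ((c : E →+* E) x) := hs
  have key : rg s f A sp e (x⁻¹ * baseChange (c : E →+* E) (s) (f) hs A sp γ * y) =
      f r := by
    unfold rg
    rw [← form_isom (s) (A.map (f)) sp x, base_sub s f c hs A sp e x y hx hy γ, ← hu, hr]
    exact form_map (c : E →+* E) (s) (f) hcA A u u
  rw [key] at hzeq
  have hM0 : (M : E) ≠ 0 := by
    obtain ⟨τ⟩ : Nonempty (E →+* ℂ) := inferInstance
    have h1 := hDM τ
    have h2 : (0 : ℝ) ≤ 4 * D * ‖τ (form (c : E →+* E) A e e)‖ := by positivity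
    have h3 : (0 : ℝ) < M := lt_of_le_of_lt h2 h1
    have h4 : M ≠ 0 := by
      rintro rfl
      simp at h3
    exact_mod_cast h4
  have hD0 : (D : E) ≠ 0 := by
    have : D ≠ 0 := by omega
    exact_mod_cast this
  have hqz : f ((D : E) * r / M) = z := by
    have hu : f ((M : E)⁻¹) * f M = 1 := by
      rw [← map_mul, inv_mul_cancel₀ hM0, map_one]
    have h5 : f ((D : E) * r) = f M * z := by
      rw [map_mul, map_natCast, map_natCast]
      exact hzeq
    calc f ((D : E) * r / M) = f ((M : E)⁻¹ * ((D : E) * r)) := by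
          rw [div_eq_mul_inv, mul_comm]
      _ = f ((M : E)⁻¹) * (f M * z) := by rw [map_mul, h5]
      _ = z := by rw [← mul_assoc, hu, one_mul]
  have hqint : IsIntegral ℤ ((D : E) * r / M) := hint _ (by rw [hqz]; exact hz)
  have hform : ∀ (τ : E →+* ℂ) (a b : Fin n → E),
      form (starRingEnd ℂ) (A.map τ) (fun i => τ (a i)) (fun i => τ (b i)) =
        τ (form (c : E →+* E) A a b) := fun τ a b =>
    form_map (c : E →+* E) (starRingEnd ℂ) τ (fun x => (hc τ x).symm) A a b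
  have hcs : ∀ τ : E →+* ℂ, ‖τ r‖ ≤ 4 * ‖τ f0‖ := by
    intro τ
    obtain ⟨v, hv'⟩ : ∃ v : Fin n → ℂ, v = fun i => τ (e i) := ⟨_, rfl⟩
    obtain ⟨w, hw'⟩ : ∃ w : Fin n → ℂ, w =
      fun i => τ ((((γ : GL (Fin n) E) : Matrix (Fin n) (Fin n) E) *ᵥ e) i) := ⟨_, rfl⟩
    have hv : form (starRingEnd ℂ) (A.map τ) v v = τ f0 := by rw [hv', hf0]; exact hform τ e e
    have hw : form (starRingEnd ℂ) (A.map τ) w w = τ f0 := by
      rw [hw', hform, form_isom, hf0]
    have h6 := cs_def (A.map τ) (hA τ) v w (by rw [hv, hf0]; exact (map_ne_zero τ).2 he) (by rw [hv, hw])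
    have h7 : τ r = form (starRingEnd ℂ) (A.map τ) (w - v) (w - v) := by
      rw [hr, ← hform, hu, hv', hw']
      congr 1 <;>
      · funext i
        simp only [Pi.sub_apply]
        rw [map_sub]
    have h8 := cd_conj (A := A.map τ) (hA τ).1 v w
    rw [h7, cd_sub_left, cd_sub_right, cd_sub_right, hv, hw]
    have h9 : ‖form (starRingEnd ℂ) (A.map τ) v w‖ ≤ ‖τ f0‖ := by rw [← hv]; exact h6.1
    have h10 : ‖form (starRingEnd ℂ) (A.map τ) w v‖ ≤ ‖τ f0‖ := by
      have h11 : ‖form (starRingEnd ℂ) (A.map τ) w v‖ = ‖form (starRingEnd ℂ) (A.map τ) v w‖ := by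
        first
          | rw [← h8, RCLike.norm_conj]
          | rw [h8, RCLike.norm_conj]
      rw [h11]; exact h9
    calc _ ≤ ‖τ f0 - form (starRingEnd ℂ) (A.map τ) w v‖ + ‖form (starRingEnd ℂ) (A.map τ) v w - τ f0‖ :=
          norm_sub_le _ _
      _ ≤ (‖τ f0‖ + ‖form (starRingEnd ℂ) (A.map τ) w v‖) +
          (‖form (starRingEnd ℂ) (A.map τ) v w‖ + ‖τ f0‖) := add_le_add (norm_sub_le _ _) (norm_sub_le _ _)
      _ ≤ 4 * ‖τ f0‖ := by linarith
  have hM' : (0 : ℝ) < M := by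
    have : M ≠ 0 := by intro h; exact hM0 (by rw [h, Nat.cast_zero])
    positivity
  have hq0 : (D : E) * r / M = 0 := by
    apply small_int _ hqint
    intro τ
    have e7 : τ ((D : E) * r / M) = (D : ℂ) * τ r / M := by
      rw [map_div₀, map_mul, map_natCast, map_natCast]
    rw [e7, norm_div, norm_mul, Complex.norm_natCast, Complex.norm_natCast, div_lt_one hM']
    calc (D : ℝ) * ‖τ r‖ ≤ D * (4 * ‖τ f0‖) := mul_le_mul_of_nonneg_left (hcs τ) (Nat.cast_nonneg D)
      _ = 4 * D * ‖τ f0‖ := by ring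
      _ < M := by rw [hf0]; exact hDM τ
  have hr0 : r = 0 := by
    rcases div_eq_zero_iff.1 hq0 with h9 | h9
    · rcases mul_eq_zero.1 h9 with h10 | h10
      · exact absurd h10 hD0
      · exact h10
    · exact absurd h9 hM0
  obtain ⟨τ⟩ : Nonempty (E →+* ℂ) := inferInstance
  have h12 : form (starRingEnd ℂ) (A.map τ) (fun i => τ (u i)) (fun i => τ (u i)) = 0 := by
    rw [hform, ← hr, hr0, map_zero]
  have h13 : (fun i => τ (u i)) = 0 := by
    by_contra hne
    rcases (hA τ).2 with h | h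
    · have := h _ hne; rw [h12] at this; simp at this
    · have := h _ hne; rw [h12] at this; simp at this
  have h14 : u = 0 := by
    funext i
    exact τ.injective ((congrFun h13 i).trans (map_zero τ).symm)
  rw [hu] at h14
  exact sub_eq_zero.1 h14

end Pool.Agent.H497.GP
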