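import Pool.Agent.H497.GP.Defs

set_option autoImplicit false

open scoped TensorProduct Matrix ComplexConjugate
open IsDedekindDomain NumberField

namespace Pool.Agent.H497.GP




variable {Γ G U ι : Type*} [Group Γ] [Group G] [NormedAddCommGroup U] [InnerProductSpace ℂ U]


/-- Unfolding. Put `X = G ⧸ K`; the map `γ ↦ mk (j γ * s)` from `Γ` to the set of `x ∈ X` whose representative (by `hS`,
applied to `x.out`) is `s` is onto with all fibres of `st j K s` elements (`mk (j γ * s) = mk (j γ' * s)` iff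
`s⁻¹ * j (γ⁻¹ * γ') * s ∈ K`), `0 < st j K s` (`hst`, `1` is an element). All sums are finite. -/
theorem unfold {M : Type*} [AddCommGroup M] [Module ℂ M] (j : Γ →* G) (K : Subgroup G) (S : Set G) (hS : Reps j K S)
    (hst : ∀ g : G, {γ : Γ | g⁻¹ * j γ * g ∈ K}.Finite) (f : G → M) (hf : ∀ g, ∀ k ∈ K, f (g * k) = f g)
    (hfin : {x : G ⧸ K | f x.out ≠ 0}.Finite) :
    ∑ᶠ x : G ⧸ K, f x.out = ∑ᶠ (s : G) (_ : s ∈ S), ((st j K s : ℂ)⁻¹) • ∑ᶠ γ : Γ, f (j γ * s) := by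
  classical
  have hout : ∀ g : G, f ((g : G ⧸ K).out) = f g := by
    intro g
    obtain ⟨k, hk⟩ := QuotientGroup.mk_out_eq_mul K g
    rw [hk]
    exact hf g k k.2
  choose rep hrep using fun x : G ⧸ K => hS x.out
  have hrepS : ∀ x, rep x ∈ S := fun x => (hrep x).1.1
  have hrep2 : ∀ x, ∃ γ : Γ, x = ((j γ * rep x : G) : G ⧸ K) := by
    intro x
    obtain ⟨γ, k, hk, h⟩ := (hrep x).1.2
    refine ⟨γ, ?_⟩
    calc x = ((x.out : G) : G ⧸ K) := (QuotientGroup.out_eq' x).symm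
      _ = _ := by rw [h]; exact (QuotientGroup.mk_mul_of_mem _ hk)
  have hrep3 : ∀ (γ : Γ) (s : G), s ∈ S → rep ((j γ * s : G) : G ⧸ K) = s := by
    intro γ s hs
    symm
    apply (hrep _).2 s
    refine ⟨hs, γ, ?_⟩
    obtain ⟨k, hk⟩ := QuotientGroup.mk_out_eq_mul K (j γ * s)
    exact ⟨k, k.2, hk⟩
  have hiff : ∀ (s : G) (γ₀ γ : Γ), ((j γ * s : G) : G ⧸ K) = ((j γ₀ * s : G) : G ⧸ K) ↔
      s⁻¹ * j (γ₀⁻¹ * γ) * s ∈ K := by
    intro s γ₀ γ
    rw [eq_comm, QuotientGroup.eq]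
    have : (j γ₀ * s)⁻¹ * (j γ * s) = s⁻¹ * j (γ₀⁻¹ * γ) * s := by
      rw [map_mul, map_inv]; group
    rw [this]
  have hfibcard : ∀ (s : G) (γ₀ : Γ),
      Nat.card {γ : Γ // ((j γ * s : G) : G ⧸ K) = ((j γ₀ * s : G) : G ⧸ K)} = st j K s := by
    intro s γ₀
    exact Nat.card_congr (Equiv.subtypeEquiv (Equiv.mulLeft γ₀⁻¹) (fun γ => hiff s γ₀ γ))
  have hfibfin : ∀ (s : G) (γ₀ : Γ),
      {γ : Γ | ((j γ * s : G) : G ⧸ K) = ((j γ₀ * s : G) : G ⧸ K)}.Finite := by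
    intro s γ₀
    have h1 : {γ : Γ | ((j γ * s : G) : G ⧸ K) = ((j γ₀ * s : G) : G ⧸ K)} =
        (fun γ => γ₀⁻¹ * γ) ⁻¹' {γ : Γ | s⁻¹ * j γ * s ∈ K} := by
      ext γ
      exact hiff s γ₀ γ
    rw [h1]
    exact (hst s).preimage (fun a _ b _ h => mul_left_cancel h)
  have hst0 : ∀ s : G, (st j K s : ℂ) ≠ 0 := by
    intro s
    have h1 : Finite {γ : Γ // s⁻¹ * j γ * s ∈ K} := (hst s).to_subtype
    have h2 : Nonempty {γ : Γ // s⁻¹ * j γ * s ∈ K} := ⟨⟨1, by simp⟩⟩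
    have h3 : st j K s ≠ 0 := Nat.card_pos.ne'
    exact_mod_cast h3
  set F : Finset (G ⧸ K) := hfin.toFinset with hF
  have hFmem : ∀ x, x ∈ F ↔ f x.out ≠ 0 := by
    intro x
    rw [hF, Set.Finite.mem_toFinset]
    rfl
  have hsum : ∀ s ∈ S, ∑ᶠ γ : Γ, f (j γ * s) =
      (st j K s : ℂ) • ∑ x ∈ F with rep x = s, f x.out := by
    intro s hs
    have hsupp : (Function.support fun γ => f (j γ * s)).Finite := by
      refine ((F.finite_toSet.biUnion (t := fun x => {γ : Γ | ((j γ * s : G) : G ⧸ K) = x}) ?_)).subset ?_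
      · intro x _
        rcases Set.eq_empty_or_nonempty {γ : Γ | ((j γ * s : G) : G ⧸ K) = x} with h | ⟨γ₀, h⟩
        · rw [h]; exact Set.finite_empty
        · have h' : ((j γ₀ * s : G) : G ⧸ K) = x := h
          rw [← h']
          exact hfibfin s γ₀
      · intro γ hγ
        simp only [Set.mem_iUnion, exists_prop, Finset.mem_coe]
        refine ⟨_, ?_, rfl⟩
        rw [hFmem, hout]
        exact hγ
    rw [finsum_eq_sum _ hsupp]
    have hmaps : ∀ γ ∈ hsupp.toFinset, ((j γ * s : G) : G ⧸ K) ∈ F.filter (fun x => rep x = s) := by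
      intro γ hγ
      rw [Set.Finite.mem_toFinset] at hγ
      rw [Finset.mem_filter, hFmem, hout]
      exact ⟨hγ, hrep3 γ s hs⟩
    rw [← Finset.sum_fiberwise_of_maps_to hmaps, Finset.smul_sum]
    refine Finset.sum_congr rfl fun x hx => ?_
    rw [Finset.mem_filter, hFmem] at hx
    obtain ⟨hx1, hx2⟩ := hx
    obtain ⟨γ₀, hγ₀⟩ := hrep2 x
    rw [hx2] at hγ₀
    have h1 : ∀ γ ∈ hsupp.toFinset.filter (fun γ => ((j γ * s : G) : G ⧸ K) = x),
        f (j γ * s) = f x.out := by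
      intro γ hγ
      rw [Finset.mem_filter] at hγ
      rw [← hγ.2, hout]
    rw [Finset.sum_congr rfl h1, Finset.sum_const]
    have h2 : (hsupp.toFinset.filter (fun γ => ((j γ * s : G) : G ⧸ K) = x)).card = st j K s := by
      rw [← hfibcard s γ₀, ← Nat.subtype_card]
      intro γ
      rw [Finset.mem_filter, Set.Finite.mem_toFinset, hγ₀]
      refine ⟨fun h => h.2, fun h => ⟨?_, h⟩⟩
      rw [Function.mem_support, ← hout, h, ← hγ₀]
      exact hx1
    rw [h2, Nat.cast_smul_eq_nsmul]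
  have hR : ∑ᶠ (s : G) (_ : s ∈ S), ((st j K s : ℂ)⁻¹) • ∑ᶠ γ : Γ, f (j γ * s) =
      ∑ᶠ s : G, ∑ x ∈ F with rep x = s, f x.out := by
    refine finsum_congr fun s => ?_
    by_cases hs : s ∈ S
    · rw [finsum_eq_if, if_pos hs, hsum s hs, smul_smul, inv_mul_cancel₀ (hst0 s), one_smul]
    · rw [finsum_eq_if, if_neg hs]
      symm
      apply Finset.sum_eq_zero
      intro x hx
      rw [Finset.mem_filter] at hx
      exact absurd (hx.2 ▸ hrepS x) hs
  rw [hR, finsum_eq_sum _ hfin]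
  rw [finsum_eq_sum_of_support_subset (s := F.image rep)]
  · rw [Finset.sum_fiberwise_of_maps_to (fun x hx => Finset.mem_image_of_mem rep hx)]
    rfl
  · intro s hs
    rw [Function.mem_support] at hs
    obtain ⟨x, hx, -⟩ := Finset.exists_ne_zero_of_sum_ne_zero hs
    rw [Finset.mem_filter] at hx
    rw [Finset.mem_coe, Finset.mem_image]
    exact ⟨x, hx.1, hx.2⟩

end Pool.Agent.H497.GP
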